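import Pool.Agent.H140.TH.Geo

namespace Pool.Agent.H140.TH
open Set MeasureTheory

lemma hex_neg (c u : ℂ) : hex c (-u) = hex c u := by
  have h : w * (w * (w * u)) = -u := by
    have hw := w_mul
    linear_combination (w * u + u) * hw
  rw [← h, hex_rot, hex_rot, hex_rot]

lemma hex_one_sub (c : ℂ) : hex c (1 - w) = hex c 1 := by
  have h : w * (1 - w) = 1 := by linear_combination (-1 : ℂ) * w_mul
  rw [← hex_rot c (1 - w), h]

lemma hex_sub_one (c : ℂ) : hex c (w - 1) = hex c 1 := by
  have h : w - 1 = -(1 - w) := by ring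
  rw [h, hex_neg, hex_one_sub]

lemma hex_w (c : ℂ) : hex c w = hex c 1 := by
  have h := hex_rot c 1
  rwa [mul_one] at h

lemma hex_negw (c : ℂ) : hex c (-w) = hex c 1 := by rw [hex_neg, hex_w]

lemma continuous_ell (p u : ℂ) : Continuous (ell p u) := by
  unfold ell
  fun_prop

/-- the midpoint of a side of a triangle, on the other side of which there is a further point -/
lemma mid_interior {S : Set ℂ} (hS : Convex ℝ S) {a b c z : ℂ} (ha : a ∈ S) (hb : b ∈ S)
    (hc : c ∈ S) (hz : z ∈ S) (hpos : 0 < ell a (b - a) c) (hneg : ell a (b - a) z < 0)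
    {m : ℂ} (hm : m = (1 / 2 : ℝ) • a + (1 / 2 : ℝ) • b) : m ∈ interior S := by
  set D := ell a (b - a) c with hD
  set U : Set ℂ := {y | 0 < ell a (b - a) y} ∩ {y | 0 < ell b (c - b) y} ∩ {y | 0 < ell c (a - c) y}
    with hU
  have hUo : IsOpen U := by
    refine IsOpen.inter (IsOpen.inter ?_ ?_) ?_
    · exact isOpen_lt continuous_const (continuous_ell _ _)
    · exact isOpen_lt continuous_const (continuous_ell _ _)
    · exact isOpen_lt continuous_const (continuous_ell _ _)
  have hUS : U ⊆ S := by
    rintro y ⟨⟨h1, h2⟩, h3⟩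
    simp only [mem_ofPred_eq] at h1 h2 h3
    have e : y = (ell b (c - b) y / D) • a + (ell c (a - c) y / D) • b + (ell a (b - a) y / D) • c := by
      have hD0 : D ≠ 0 := hpos.ne'
      have : D • y = (ell b (c - b) y) • a + (ell c (a - c) y) • b + (ell a (b - a) y) • c := by
        rw [hD]
        apply Complex.ext
        · simp [ell]; ring
        · simp [ell]; ring
      calc y = D⁻¹ • (D • y) := by rw [smul_smul, inv_mul_cancel₀ hD0, one_smul]
        _ = D⁻¹ • ((ell b (c - b) y) • a + (ell c (a - c) y) • b + (ell a (b - a) y) • c) := by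
          rw [this]
        _ = _ := by
          simp only [smul_add, smul_smul, div_eq_inv_mul]
    have hsum : ell b (c - b) y / D + ell c (a - c) y / D + ell a (b - a) y / D = 1 := by
      rw [← add_div, ← add_div]
      rw [div_eq_one_iff_eq hpos.ne', hD]
      simp [ell]; ring
    rw [e]
    have := hS.sum_mem (t := (Finset.univ : Finset (Fin 3)))
      (w := ![ell b (c - b) y / D, ell c (a - c) y / D, ell a (b - a) y / D]) (z := ![a, b, c])
      (by intro i _; fin_cases i
          · exact (div_pos h2 hpos).le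
          · exact (div_pos h3 hpos).le
          · exact (div_pos h1 hpos).le)
      (by simp [Fin.sum_univ_three]; exact hsum)
      (by intro i _; fin_cases i
          · exact ha
          · exact hb
          · exact hc)
    simpa [Fin.sum_univ_three] using this
  set E2 := ell b (c - b) z
  set E3 := ell c (a - c) z
  set ε : ℝ := D / (2 * (|E2| + |E3| + 1)) with hε
  have hεpos : 0 < ε := by positivity
  have hεE2 : ε * |E2| < D / 2 := by
    rw [hε]
    rw [div_mul_eq_mul_div, div_lt_div_iff₀ (by positivity) (by norm_num)]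
    have := abs_nonneg E3
    nlinarith [abs_nonneg E2]
  have hεE3 : ε * |E3| < D / 2 := by
    rw [hε]
    rw [div_mul_eq_mul_div, div_lt_div_iff₀ (by positivity) (by norm_num)]
    have := abs_nonneg E3
    nlinarith [abs_nonneg E2]
  set x : ℂ := (1 + ε) • m + (-ε) • z with hx
  have hab : ell a (b - a) m = 0 := by
    rw [hm, ell_combo _ _ _ _ _ _ (by norm_num)]; simp [ell]; ring
  have hbc : ell b (c - b) m = D / 2 := by
    rw [hm, ell_combo _ _ _ _ _ _ (by norm_num), hD]; simp [ell]; ring
  have hca : ell c (a - c) m = D / 2 := by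
    rw [hm, ell_combo _ _ _ _ _ _ (by norm_num), hD]; simp [ell]; ring
  have hxU : x ∈ U := by
    refine ⟨⟨?_, ?_⟩, ?_⟩
    · simp only [mem_ofPred_eq]
      rw [hx, ell_combo _ _ _ _ _ _ (by ring), hab]
      nlinarith
    · simp only [mem_ofPred_eq]
      rw [hx, ell_combo _ _ _ _ _ _ (by ring), hbc]
      have : ε * E2 ≤ ε * |E2| := mul_le_mul_of_nonneg_left (le_abs_self _) hεpos.le
      nlinarith
    · simp only [mem_ofPred_eq]
      rw [hx, ell_combo _ _ _ _ _ _ (by ring), hca]
      have : ε * E3 ≤ ε * |E3| := mul_le_mul_of_nonneg_left (le_abs_self _) hεpos.le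
      nlinarith
  have hxS : x ∈ interior S := interior_maximal hUS hUo hxU
  refine hS.openSegment_interior_self_subset_interior hxS hz ?_
  refine ⟨1 / (1 + ε), ε / (1 + ε), by positivity, by positivity, by field_simp, ?_⟩
  rw [hx, smul_add, smul_smul, smul_smul, add_assoc, ← add_smul]
  have e1 : 1 / (1 + ε) * (1 + ε) = 1 := by field_simp
  have e2 : 1 / (1 + ε) * -ε + ε / (1 + ε) = 0 := by field_simp; ring
  rw [e1, e2, one_smul, zero_smul, add_zero]

/-- two triangles at the edge from `v` to `v + 1` -/
def TT (P : Set (Set ℂ)) (v : ℂ) : Prop := tri v 1 ∈ P ∧ tri (v + 1) (-1) ∈ P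

/-- two hexagons at the edge from `v` to `v + 1` -/
def HH (P : Set (Set ℂ)) (v : ℂ) : Prop := hex (v + w) 1 ∈ P ∧ hex (v + 1 - w) 1 ∈ P

lemma not_three {P : Set (Set ℂ)} {Q : Set ℂ → Prop} (hfin : P.Finite) {A B C : Set ℂ}
    (hA : A ∈ P) (hB : B ∈ P) (hC : C ∈ P) (qA : Q A) (qB : Q B) (qC : Q C)
    (hAB : A ≠ B) (hAC : A ≠ C) (hBC : B ≠ C) (h : {V ∈ P | Q V}.ncard ≤ 2) : False := by
  classical
  have hsub : ({A, B, C} : Set (Set ℂ)) ⊆ {V ∈ P | Q V} := by
    rintro V (rfl | rfl | rfl)
    · exact ⟨hA, qA⟩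
    · exact ⟨hB, qB⟩
    · exact ⟨hC, qC⟩
  have h1 := ncard_le_ncard hsub (hfin.subset fun V hV => hV.1)
  have h2 : ({A, B, C} : Set (Set ℂ)).ncard = 3 := by
    rw [ncard_insert_of_notMem, ncard_pair hBC]
    simp only [mem_insert_iff, mem_singleton_iff, not_or]
    exact ⟨hAB, hAC⟩
  omega

lemma mem_region {P : Set (Set ℂ)} {V : Set ℂ} (hV : V ∈ P) {z : ℂ} (hz : z ∈ convexHull ℝ V) :
    z ∈ region P := by
  simp only [region, mem_iUnion]
  exact ⟨V, hV, hz⟩

lemma mem_region' {P : Set (Set ℂ)} {V : Set ℂ} (hV : V ∈ P) {z : ℂ} (hz : z ∈ V) :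
    z ∈ region P := mem_region hV (subset_convexHull ℝ _ hz)

lemma hex_center (c u : ℂ) : c ∈ convexHull ℝ (hex c u) := by
  have h1 : c + u ∈ convexHull ℝ (hex c u) := subset_convexHull ℝ _ (by simp [hex])
  have h2 : c - u ∈ convexHull ℝ (hex c u) := subset_convexHull ℝ _ (by simp [hex])
  have := (convex_convexHull ℝ (hex c u)) h1 h2 (a := 1/2) (b := 1/2)
    (by norm_num) (by norm_num) (by norm_num)
  convert this using 1
  apply Complex.ext
  · simp; ring
  · simp; ring

lemma mem_hex_dist {c z : ℂ} (h : z ∈ hex c 1) : Complex.normSq (z - c) = 1 := by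
  have hw := normSq_w
  simp only [hex, mem_insert_iff, mem_singleton_iff, mul_one, w_sq] at h
  have h1 : Complex.normSq (w - 1) = 1 := by rw [← w_sq, map_pow, hw, one_pow]
  rcases h with h | h | h | h | h | h
  · have : z - c = 1 := by rw [h]; ring
    rw [this]; simp
  · have : z - c = w := by rw [h]; ring
    rw [this, hw]
  · have : z - c = w - 1 := by rw [h]; ring
    rw [this, h1]
  · have : z - c = -1 := by rw [h]; ring
    rw [this]; simp
  · have : z - c = -w := by rw [h]; ring
    rw [this, Complex.normSq_neg, hw]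
  · have : z - c = -(w - 1) := by rw [h]; ring
    rw [this, Complex.normSq_neg, h1]

lemma isHex_one (c : ℂ) : IsHex (hex c 1) := ⟨c, 1, by simp, rfl⟩

lemma hex_third {P : Set (Set ℂ)} (hfin : P.Finite)
    (hexs : ∀ v : ℂ, {V ∈ P | IsHex V ∧ v ∈ V}.ncard ≤ 2) {v : ℂ} (h : HH P v)
    (h3 : hex (v - 1) 1 ∈ P) : False := by
  have hw := w_mul
  have hs := s3
  have hp := s3pos
  refine not_three (Q := fun V => IsHex V ∧ v ∈ V) hfin h.1 h.2 h3 ⟨isHex_one _, ?_⟩
    ⟨isHex_one _, ?_⟩ ⟨isHex_one _, ?_⟩ ?_ ?_ ?_ (hexs v)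
  · simp only [hex, mem_insert_iff, mem_singleton_iff, w_sq]
    right; right; right; right; left; ring
  · simp only [hex, mem_insert_iff, mem_singleton_iff, w_sq]
    right; right; left; ring
  · simp only [hex, mem_insert_iff, mem_singleton_iff, w_sq]
    left; ring
  · intro h
    have h1 : (v + w) + 1 ∈ hex (v + w) 1 := by simp [hex]
    rw [h] at h1
    have h2 := mem_hex_dist h1
    rw [Complex.normSq_apply] at h2
    simp [w_re, w_im] at h2
    nlinarith
  · intro h
    have h1 : (v - 1) - 1 ∈ hex (v - 1) 1 := by simp [hex]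
    rw [← h] at h1
    have h2 := mem_hex_dist h1
    rw [Complex.normSq_apply] at h2
    simp [w_re, w_im] at h2
    nlinarith
  · intro h
    have h1 : (v - 1) - 1 ∈ hex (v - 1) 1 := by simp [hex]
    rw [← h] at h1
    have h2 := mem_hex_dist h1
    rw [Complex.normSq_apply] at h2
    simp [w_re, w_im] at h2
    nlinarith

/-- after two hexagons come two triangles -/
lemma step_HH {P : Set (Set ℂ)} (hP : IsFamily P) (hfin : P.Finite)
    (hexs : ∀ v : ℂ, {V ∈ P | IsHex V ∧ v ∈ V}.ncard ≤ 2) (hc : Convex ℝ (region P)) {v : ℂ}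
    (h : HH P v) : TT P (v - 1) := by
  have hw := w_mul
  have hs := s3
  have hp := s3pos
  obtain ⟨h1, h2⟩ := h
  -- points of the region
  have m1 : v + w - 1 ∈ region P := mem_region' h1 (by simp [hex])
  have m2 : v ∈ region P := mem_region' h1 (by
    simp only [hex, mem_insert_iff, mem_singleton_iff, w_sq]
    right; right; right; right; left; ring)
  have m3 : v + w ∈ region P := mem_region h1 (hex_center _ _)
  have m4 : v - w ∈ region P := mem_region' h2 (by
    simp only [hex, mem_insert_iff, mem_singleton_iff, w_sq]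
    right; right; right; left; ring)
  have m5 : v + 1 - w ∈ region P := mem_region h2 (hex_center _ _)
  constructor
  · have hl : LTile (v + w - 1) (1 - w) (hex (v + w) 1) := by
      right
      have e : v + w - 1 + w * (1 - w) = v + w := by linear_combination (-1 : ℂ) * hw
      rw [e, hex_one_sub]
    have hm : v + w - 1 + (1 / 2 : ℝ) • (1 - w) ∈ interior (region P) := by
      refine mid_interior hc (a := v + w - 1) (b := v) (c := v + w) (z := v - w) m1 m2 m3 m4 ?_ ?_ ?_
      · simp [ell, w_re, w_im]
      · simp [ell, w_re, w_im]; nlinarith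
      · apply Complex.ext
        · simp [w_re, w_im]; ring
        · simp [w_re, w_im]; ring
    obtain ⟨X, hX, hXl⟩ := neighbour hP hfin (u := 1 - w) (by
      rw [← norm_neg]; have : -(1 - w) = w - 1 := by ring
      rw [this, norm_w1]) h1 hl hm
    have e1 : v + w - 1 + (1 - w) = v := by ring
    have e2 : -(1 - w) = w - 1 := by ring
    rw [e1, e2] at hXl
    rcases hXl with hXl | hXl
    · have e3 : tri v (w - 1) = tri (v - 1) 1 := by
        unfold tri
        have a1 : v + w * (w - 1) = v - 1 := by linear_combination hw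
        have a2 : v - 1 + w * 1 = v + (w - 1) := by ring
        rw [a1, a2]
        have a3 : v - 1 + 1 = v := by ring
        rw [a3]
        ext z; simp only [mem_insert_iff, mem_singleton_iff]; tauto
      rw [← e3, ← hXl]; exact hX
    · exfalso
      have e3 : v + w * (w - 1) = v - 1 := by linear_combination hw
      rw [e3, hex_sub_one] at hXl
      exact hex_third hfin hexs ⟨h1, h2⟩ (hXl ▸ hX)
  · have hl : LTile v (-w) (hex (v + 1 - w) 1) := by
      right
      have e : v + w * -w = v + 1 - w := by linear_combination (-1 : ℂ) * hw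
      rw [e, hex_negw]
    have hm : v + (1 / 2 : ℝ) • (-w) ∈ interior (region P) := by
      refine mid_interior hc (a := v) (b := v - w) (c := v + 1 - w) (z := v + w - 1) m2 m4 m5 m1 ?_ ?_ ?_
      · simp [ell, w_re, w_im]; nlinarith
      · simp [ell, w_re, w_im]; nlinarith
      · apply Complex.ext
        · simp [w_re, w_im]; ring
        · simp [w_re, w_im]; ring
    obtain ⟨X, hX, hXl⟩ := neighbour hP hfin (u := -w) (by rw [norm_neg, norm_w]) h2 hl hm
    have e1 : v + -w = v - w := by ring
    have e2 : -(-w) = w := by ring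
    rw [e1, e2] at hXl
    rcases hXl with hXl | hXl
    · have e3 : tri (v - w) w = tri (v - 1 + 1) (-1) := by
        unfold tri
        have a1 : v - w + w * w = v - 1 := by linear_combination hw
        have a2 : v - w + w = v := by ring
        have a3 : v - 1 + 1 = v := by ring
        have a4 : v + w * -1 = v - w := by ring
        have a5 : v + -1 = v - 1 := by ring
        rw [a1, a2, a3, a4, a5]
        ext z; simp only [mem_insert_iff, mem_singleton_iff]; tauto
      rw [← e3, ← hXl]; exact hX
    · exfalso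
      have e3 : v - w + w * w = v - 1 := by linear_combination hw
      rw [e3, hex_w] at hXl
      exact hex_third hfin hexs ⟨h1, h2⟩ (hXl ▸ hX)

lemma isTri_of {p u : ℂ} (hu : ‖u‖ = 1) : IsTri (tri p u) := ⟨p, u, hu, rfl⟩

/-- the upper hexagon after two triangles -/
lemma step_TT_up {P : Set (Set ℂ)} (hP : IsFamily P) (hfin : P.Finite)
    (tris : ∀ v : ℂ, {V ∈ P | IsTri V ∧ v ∈ V}.ncard ≤ 2) (hc : Convex ℝ (region P)) {v : ℂ}
    (h : TT P v) {z : ℂ} (hz : z ∈ region P) (hz' : Real.sqrt 3 * (z - v).re < (z - v).im) :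
    hex (v - 1 + w) 1 ∈ P := by
  have hw := w_mul
  have hs := s3
  have hp := s3pos
  obtain ⟨h1, h2⟩ := h
  have m1 : v ∈ region P := mem_region' h1 (by simp [tri])
  have m2 : v + 1 ∈ region P := mem_region' h1 (by simp [tri])
  have m3 : v + w ∈ region P := mem_region' h1 (by simp [tri])
  have hl : LTile (v + w) (-w) (tri v 1) := by
    left
    have := tri_rot' v 1
    simp only [mul_one] at this
    exact this.symm
  have hm : v + w + (1 / 2 : ℝ) • (-w) ∈ interior (region P) := by
    refine mid_interior hc (a := v + w) (b := v) (c := v + 1) (z := z) m3 m1 m2 hz ?_ ?_ ?_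
    · simp [ell, w_re, w_im]; nlinarith
    · simp at hz'
      simp [ell, w_re, w_im]; nlinarith
    · apply Complex.ext
      · simp [w_re, w_im]; ring
      · simp [w_re, w_im]; ring
  obtain ⟨X, hX, hXl⟩ := neighbour hP hfin (u := -w) (by rw [norm_neg, norm_w]) h1 hl hm
  have e1 : v + w + -w = v := by ring
  have e2 : -(-w) = w := by ring
  rw [e1, e2] at hXl
  rcases hXl with hXl | hXl
  · exfalso
    refine not_three (Q := fun V => IsTri V ∧ v ∈ V) hfin h1 h2 hX ⟨isTri_of (by simp), by simp [tri]⟩
      ⟨isTri_of (by simp), by simp [tri]⟩ ⟨hXl ▸ isTri_of norm_w, by simp [hXl, tri]⟩ ?_ ?_ ?_ (tris v)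
    · intro h
      have h3 : v + w ∈ tri v 1 := by simp [tri]
      rw [h] at h3
      simp only [tri, mem_insert_iff, mem_singleton_iff] at h3
      rcases h3 with h3 | h3 | h3
      · have := congrArg Complex.im h3; simp [w_im] at this
      · have := congrArg Complex.im h3; simp [w_im] at this
      · have := congrArg Complex.im h3; simp [w_im] at this; linarith
    · intro h
      have h3 : v + 1 ∈ tri v 1 := by simp [tri]
      rw [h, hXl] at h3
      simp only [tri, mem_insert_iff, mem_singleton_iff, hw] at h3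
      rcases h3 with h3 | h3 | h3
      · have := congrArg Complex.re h3; simp at this
      · have := congrArg Complex.im h3; simp [w_im] at this
      · have := congrArg Complex.im h3; simp [w_im] at this
    · intro h
      have h3 : v + 1 ∈ tri (v + 1) (-1) := by simp [tri]
      rw [h, hXl] at h3
      simp only [tri, mem_insert_iff, mem_singleton_iff, hw] at h3
      rcases h3 with h3 | h3 | h3
      · have := congrArg Complex.re h3; simp at this
      · have := congrArg Complex.im h3; simp [w_im] at this
      · have := congrArg Complex.im h3; simp [w_im] at this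
  · have e3 : v + w * w = v - 1 + w := by linear_combination hw
    rw [e3, hex_w] at hXl
    exact hXl ▸ hX

/-- the lower hexagon after two triangles -/
lemma step_TT_down {P : Set (Set ℂ)} (hP : IsFamily P) (hfin : P.Finite)
    (tris : ∀ v : ℂ, {V ∈ P | IsTri V ∧ v ∈ V}.ncard ≤ 2) (hc : Convex ℝ (region P)) {v : ℂ}
    (h : TT P v) {z : ℂ} (hz : z ∈ region P) (hz' : Real.sqrt 3 * (z - v).re < -(z - v).im) :
    hex (v - 1 + 1 - w) 1 ∈ P := by
  have hw := w_mul
  have hs := s3
  have hp := s3pos
  obtain ⟨h1, h2⟩ := h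
  have m1 : v ∈ region P := mem_region' h1 (by simp [tri])
  have m2 : v + 1 ∈ region P := mem_region' h1 (by simp [tri])
  have m3 : v + 1 - w ∈ region P := mem_region' h2 (by
    simp only [tri, mem_insert_iff, mem_singleton_iff]
    right; right; ring)
  have hl : LTile v (1 - w) (tri (v + 1) (-1)) := by
    left
    have := tri_rot (v + 1) (-1)
    rw [← this]
    have e1 : v + 1 + -1 = v := by ring
    have e2 : (w - 1) * -1 = 1 - w := by ring
    rw [e1, e2]
  have hm : v + (1 / 2 : ℝ) • (1 - w) ∈ interior (region P) := by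
    refine mid_interior hc (a := v) (b := v + 1 - w) (c := v + 1) (z := z) m1 m3 m2 hz ?_ ?_ ?_
    · simp [ell, w_re, w_im]
    · simp at hz'
      simp [ell, w_re, w_im]; nlinarith
    · apply Complex.ext
      · simp [w_re, w_im]; ring
      · simp [w_re, w_im]; ring
  have hn : ‖(1 - w : ℂ)‖ = 1 := by
    rw [← norm_neg]; have : -(1 - w) = w - 1 := by ring
    rw [this, norm_w1]
  obtain ⟨X, hX, hXl⟩ := neighbour hP hfin (u := 1 - w) hn h2 hl hm
  have e1 : v + (1 - w) = v + 1 - w := by ring
  have e2 : -(1 - w) = w - 1 := by ring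
  rw [e1, e2] at hXl
  have hvX : v ∈ X := by
    have := hXl.mem_q
    have e : v + 1 - w + (w - 1) = v := by ring
    rwa [e] at this
  rcases hXl with hXl | hXl
  · exfalso
    refine not_three (Q := fun V => IsTri V ∧ v ∈ V) hfin h1 h2 hX ⟨isTri_of (by simp), by simp [tri]⟩
      ⟨isTri_of (by simp), by simp [tri]⟩ ⟨hXl ▸ isTri_of norm_w1, hvX⟩ ?_ ?_ ?_ (tris v)
    · intro h
      have h3 : v + w ∈ tri v 1 := by simp [tri]
      rw [h] at h3
      simp only [tri, mem_insert_iff, mem_singleton_iff] at h3
      rcases h3 with h3 | h3 | h3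
      · have := congrArg Complex.im h3; simp [w_im] at this
      · have := congrArg Complex.im h3; simp [w_im] at this
      · have := congrArg Complex.im h3; simp [w_im] at this; linarith
    · intro h
      have h3 : v + 1 ∈ tri v 1 := by simp [tri]
      rw [h, hXl] at h3
      have e4 : v + 1 - w + w * (w - 1) = v - w := by linear_combination hw
      simp only [tri, mem_insert_iff, mem_singleton_iff, e4] at h3
      rcases h3 with h3 | h3 | h3
      · have := congrArg Complex.im h3; simp [w_im] at this; linarith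
      · have := congrArg Complex.re h3; simp at this
      · have := congrArg Complex.im h3; simp [w_im] at this; linarith
    · intro h
      have h3 : v + 1 ∈ tri (v + 1) (-1) := by simp [tri]
      rw [h, hXl] at h3
      have e4 : v + 1 - w + w * (w - 1) = v - w := by linear_combination hw
      simp only [tri, mem_insert_iff, mem_singleton_iff, e4] at h3
      rcases h3 with h3 | h3 | h3
      · have := congrArg Complex.im h3; simp [w_im] at this; linarith
      · have := congrArg Complex.re h3; simp at this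
      · have := congrArg Complex.im h3; simp [w_im] at this; linarith
  · have e3 : v + 1 - w + w * (w - 1) = v - 1 + 1 - w := by linear_combination hw
    rw [e3, hex_sub_one] at hXl
    exact hXl ▸ hX

/-- the left end of a mirror line in a convex patch -/
theorem corner {P : Set (Set ℂ)} (hP : IsFamily P) (hfin : P.Finite)
    (tris : ∀ v : ℂ, {V ∈ P | IsTri V ∧ v ∈ V}.ncard ≤ 2)
    (hexs : ∀ v : ℂ, {V ∈ P | IsHex V ∧ v ∈ V}.ncard ≤ 2)
    (hc : Convex ℝ (region P)) {s : ℂ} (h : TT P s) :
    ∃ n : ℕ, s - n ∈ region P ∧ ∀ z ∈ region P, |(z - (s - n)).im| ≤ Real.sqrt 3 * (z - (s - n)).re := by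
  by_contra hcon
  push Not at hcon
  have hgood : ∀ n : ℕ, TT P (s - (2 * n : ℕ)) := by
    intro n
    induction n with
    | zero => simpa using h
    | succ n ih =>
      have hHH : HH P (s - (2 * n : ℕ) - 1) := by
        have m1 : s - (2 * n : ℕ) ∈ region P := mem_region' ih.1 (by simp [tri])
        obtain ⟨z, hz, hz'⟩ := hcon (2 * n) m1
        rcases lt_abs.1 hz' with h1 | h1
        · have hup := step_TT_up hP hfin tris hc ih hz h1
          have hv1 : s - (2 * n : ℕ) - 1 ∈ region P := mem_region' hup (by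
            simp only [hex, mem_insert_iff, mem_singleton_iff, w_sq]
            right; right; right; right; left; ring)
          refine ⟨hup, step_TT_down hP hfin tris hc ih hv1 ?_⟩
          have : s - (2 * n : ℕ) - 1 - (s - (2 * n : ℕ)) = -1 := by ring
          rw [this]
          simp
        · have hdown := step_TT_down hP hfin tris hc ih hz h1
          have hv1 : s - (2 * n : ℕ) - 1 ∈ region P := mem_region' hdown (by
            simp only [hex, mem_insert_iff, mem_singleton_iff, w_sq]
            right; right; left; ring)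
          refine ⟨step_TT_up hP hfin tris hc ih hv1 ?_, hdown⟩
          have : s - (2 * n : ℕ) - 1 - (s - (2 * n : ℕ)) = -1 := by ring
          rw [this]
          simp
      have := step_HH hP hfin hexs hc hHH
      have e : s - (2 * n : ℕ) - 1 - 1 = s - (2 * (n + 1) : ℕ) := by push_cast; ring
      rwa [e] at this
  have hcomp : IsCompact (region P) := by
    unfold region
    exact hfin.isCompact_biUnion fun V hV => (tile_finite (hP.tile V hV)).isCompact_convexHull ℝ
  obtain ⟨R, hR⟩ := hcomp.isBounded.exists_norm_le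
  obtain ⟨n, hn⟩ := exists_nat_gt (R + ‖s‖)
  have m1 : s - (2 * n : ℕ) ∈ region P := mem_region' (hgood n).1 (by simp [tri])
  have h1 := hR _ m1
  have h2 : ‖((2 * n : ℕ) : ℂ)‖ ≤ ‖s‖ + ‖s - (2 * n : ℕ)‖ := by
    have : ((2 * n : ℕ) : ℂ) = s - (s - (2 * n : ℕ)) := by ring
    calc ‖((2 * n : ℕ) : ℂ)‖ = ‖s - (s - (2 * n : ℕ))‖ := by rw [← this]
      _ ≤ _ := norm_sub_le _ _
  rw [Complex.norm_natCast] at h2
  have h5 : ((2 * n : ℕ) : ℝ) = 2 * (n : ℝ) := by push_cast; ring
  rw [h5] at h2
  have : (0 : ℝ) ≤ n := Nat.cast_nonneg n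
  linarith

/-- no convex patch contains two mirror edges of two different horizontal lines -/
theorem no_convex {P : Set (Set ℂ)} (hP : IsFamily P) (hfin : P.Finite)
    (tris : ∀ v : ℂ, {V ∈ P | IsTri V ∧ v ∈ V}.ncard ≤ 2)
    (hexs : ∀ v : ℂ, {V ∈ P | IsHex V ∧ v ∈ V}.ncard ≤ 2)
    (hc : Convex ℝ (region P)) {s t : ℂ} (hs : TT P s) (ht : TT P t) (hst : s.im ≠ t.im) : False := by
  obtain ⟨m, h1, h2⟩ := corner hP hfin tris hexs hc hs
  obtain ⟨n, h3, h4⟩ := corner hP hfin tris hexs hc ht
  have a1 := h2 _ h3
  have a2 := h4 _ h1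
  have hp := s3pos
  have b1 : (t - n - (s - m)).im = t.im - s.im := by simp
  have b2 : (s - m - (t - n)).im = s.im - t.im := by simp
  have b3 : (s - m - (t - n)).re = -(t - n - (s - m)).re := by simp
  rw [b1] at a1
  rw [b2, b3] at a2
  have c1 : 0 < |t.im - s.im| := abs_pos.2 (sub_ne_zero.2 (Ne.symm hst))
  have c2 : 0 < |s.im - t.im| := abs_pos.2 (sub_ne_zero.2 hst)
  linarith

end Pool.Agent.H140.TH
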