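import Mathlib

/-!
# A patch of triangles and hexagons that extends to a tiling but to no convex patch

Tiles are regular triangles and regular hexagons with sides of length one, given by their vertex
sets.  We exhibit a patch of five tiles (one hexagon and two rhombi, each consisting of two
triangles) that is part of an edge-to-edge tiling of the plane, all of whose vertices have exactly
two triangles and two hexagons, but is contained in no convex patch.

Idea: a *mirror line* is a line of unit edges which separate, alternately, two triangles and two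
hexagons.  Inside a convex patch a mirror line can only end at a corner of angle 120 degrees of the
patch, which lies in the cone of opening 120 degrees around the line, with this corner as its apex.
Two different parallel mirror lines cannot both end in this way on their left ends.
-/

namespace Pool.Agent.H140.TH

open Set MeasureTheory

/-- The sixth root of unity `1/2 + (√3/2) i`. -/
noncomputable def w : ℂ := ⟨1 / 2, Real.sqrt 3 / 2⟩

/-- The vertex set of the regular triangle with the vertices `p`, `p + u`, which lies to the left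
of the directed segment from `p` to `p + u`. -/
noncomputable def tri (p u : ℂ) : Set ℂ := {p, p + u, p + w * u}

/-- The vertex set of the regular hexagon with centre `c` and vertex `c + u`. -/
noncomputable def hex (c u : ℂ) : Set ℂ :=
  {c + u, c + w * u, c + w ^ 2 * u, c - u, c - w * u, c - w ^ 2 * u}

/-- `V` is the vertex set of a regular triangle with sides of length one. -/
def IsTri (V : Set ℂ) : Prop := ∃ p u : ℂ, ‖u‖ = 1 ∧ V = tri p u

/-- `V` is the vertex set of a regular hexagon with sides of length one. -/
def IsHex (V : Set ℂ) : Prop := ∃ c u : ℂ, ‖u‖ = 1 ∧ V = hex c u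

/-- The tiles with the vertex sets `V` and `W` have no common point, exactly one common point,
which is a vertex of both, or their intersection is a side of both (two vertices of a tile are the
ends of a side if and only if their distance is one). -/
def EdgeToEdge (V W : Set ℂ) : Prop :=
  convexHull ℝ V ∩ convexHull ℝ W = ∅ ∨
  (∃ p ∈ V ∩ W, convexHull ℝ V ∩ convexHull ℝ W = {p}) ∨
  (∃ p ∈ V ∩ W, ∃ q ∈ V ∩ W, ‖p - q‖ = 1 ∧ convexHull ℝ V ∩ convexHull ℝ W = segment ℝ p q)

/-- The union of the tiles with vertex sets in `F`. -/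
def region (F : Set (Set ℂ)) : Set ℂ := ⋃ V ∈ F, convexHull ℝ V

/-- A family of regular triangles and hexagons with sides of length one, placed edge-to-edge, two
different ones of which meet in a set of area zero. -/
structure IsFamily (F : Set (Set ℂ)) : Prop where
  tile : ∀ V ∈ F, IsTri V ∨ IsHex V
  area : ∀ V ∈ F, ∀ W ∈ F, V ≠ W → volume (convexHull ℝ V ∩ convexHull ℝ W) = 0
  edge : ∀ V ∈ F, ∀ W ∈ F, V ≠ W → EdgeToEdge V W

/-- A patch: a finite family whose union is a topological disk, with at most two triangles and at
most two hexagons at every vertex. -/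
structure IsPatch (P : Set (Set ℂ)) : Prop extends IsFamily P where
  finite : P.Finite
  disk : Nonempty (region P ≃ₜ Metric.closedBall (0 : ℂ) 1)
  tris : ∀ v : ℂ, {V ∈ P | IsTri V ∧ v ∈ V}.ncard ≤ 2
  hexs : ∀ v : ℂ, {V ∈ P | IsHex V ∧ v ∈ V}.ncard ≤ 2

/-- A tiling of the plane with exactly two triangles and two hexagons at every vertex. -/
structure IsTiling (F : Set (Set ℂ)) : Prop extends IsFamily F where
  cover : region F = univ
  tris : ∀ V ∈ F, ∀ v ∈ V, {W ∈ F | IsTri W ∧ v ∈ W}.ncard = 2
  hexs : ∀ V ∈ F, ∀ v ∈ V, {W ∈ F | IsHex W ∧ v ∈ W}.ncard = 2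

/-! ### The number `w` -/

lemma s3 : Real.sqrt 3 * Real.sqrt 3 = 3 := Real.mul_self_sqrt (by norm_num)
lemma s3pos : 0 < Real.sqrt 3 := Real.sqrt_pos.2 (by norm_num)

lemma w_re : w.re = 1 / 2 := rfl
lemma w_im : w.im = Real.sqrt 3 / 2 := rfl

lemma w_sq : w ^ 2 = w - 1 := by
  apply Complex.ext
  · simp [pow_two, w_re, w_im]; nlinarith [s3]
  · simp [pow_two, w_re, w_im]; ring

lemma normSq_w : Complex.normSq w = 1 := by
  rw [Complex.normSq_apply, w_re, w_im]; nlinarith [s3]

lemma norm_w : ‖w‖ = 1 := by
  have h : ‖w‖ ^ 2 = 1 := by rw [Complex.sq_norm, normSq_w]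
  nlinarith [norm_nonneg w]

lemma w_mul : w * w = w - 1 := by rw [← pow_two, w_sq]

lemma tri_finite (p u : ℂ) : (tri p u).Finite := by
  unfold tri; exact Set.toFinite _

lemma hex_finite (p u : ℂ) : (hex p u).Finite := by
  unfold hex; exact Set.toFinite _

lemma tile_finite {V : Set ℂ} (h : IsTri V ∨ IsHex V) : V.Finite := by
  rcases h with ⟨p, u, -, rfl⟩ | ⟨p, u, -, rfl⟩
  · exact tri_finite _ _
  · exact hex_finite _ _

/-- the linear functional vanishing on the line through `p` and `p + u` -/
noncomputable def ell (p u z : ℂ) : ℝ := (z - p).im * u.re - (z - p).re * u.im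

lemma ell_combo (p u a b : ℂ) (s t : ℝ) (h : s + t = 1) :
    ell p u (s • a + t • b) = s * ell p u a + t * ell p u b := by
  unfold ell
  have hs : s = 1 - t := by linarith
  subst hs
  simp
  ring

lemma convex_ell_nonneg (p u : ℂ) : Convex ℝ {z | 0 ≤ ell p u z} := by
  intro a ha b hb s t hs ht hst
  simp only [mem_ofPred_eq] at *
  rw [ell_combo _ _ _ _ _ _ hst]
  positivity

lemma convex_ell_nonpos (p u : ℂ) : Convex ℝ {z | ell p u z ≤ 0} := by
  intro a ha b hb s t hs ht hst
  simp only [mem_ofPred_eq] at *
  rw [ell_combo _ _ _ _ _ _ hst]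
  nlinarith [mul_nonneg hs (neg_nonneg.2 ha), mul_nonneg ht (neg_nonneg.2 hb)]

lemma normSq_u {u : ℂ} (hu : ‖u‖ = 1) : u.re * u.re + u.im * u.im = 1 := by
  have : Complex.normSq u = 1 := by rw [← Complex.sq_norm, hu]; norm_num
  rwa [Complex.normSq_apply] at this

lemma ell_zero (p u : ℂ) : ell p u p = 0 := by simp [ell]
lemma ell_one (p u : ℂ) : ell p u (p + u) = 0 := by simp [ell]; ring
lemma ell_w (p u : ℂ) (hu : ‖u‖ = 1) : ell p u (p + w * u) = Real.sqrt 3 / 2 := by
  have := normSq_u hu
  simp [ell, w_re, w_im]
  linear_combination (Real.sqrt 3 / 2) * this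

lemma hex_rot (c u : ℂ) : hex c (w * u) = hex c u := by
  have h2 := w_sq
  unfold hex
  have e1 : c + w ^ 2 * u = c + w * (w * u) := by ring
  have e2 : c + w ^ 2 * (w * u) = c - u := by
    have : w ^ 2 * (w * u) = (w * w^2) * u := by ring
    rw [this, h2]
    have : w * (w - 1) = w ^ 2 - w := by ring
    rw [this, h2]; ring
  have e3 : c - w ^ 2 * (w * u) = c + u := by
    have : w ^ 2 * (w * u) = (w * w^2) * u := by ring
    rw [this, h2]
    have : w * (w - 1) = w ^ 2 - w := by ring
    rw [this, h2]; ring
  have e4 : c - w ^ 2 * u = c - w * (w * u) := by ring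
  rw [e1, e4, e2, e3]
  ext z
  simp only [mem_insert_iff, mem_singleton_iff]
  tauto

end Pool.Agent.H140.TH
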