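import Mathlib

namespace Pool.Agent.H140.TH
open Set Metric Filter Topology

/-- a gauge-like function gives a homeomorphism of its unit ball with the unit disk -/
theorem disk_of_gauge {g : ℂ → ℝ} (hg : Continuous g) (hs : ∀ (t : ℝ) (z : ℂ), 0 ≤ t → g (t • z) = t * g z)
    {r : ℝ} (hr : 0 < r) (hb : ∀ z, r * ‖z‖ ≤ g z) (c : ℂ) {S : Set ℂ} (hS : ∀ z, z ∈ S ↔ g (z - c) ≤ 1) :
    Nonempty (S ≃ₜ closedBall (0 : ℂ) 1) := by
  have hg0 : g 0 = 0 := by
    have := hs 0 0 le_rfl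
    simpa using this
  have hpos : ∀ z, z ≠ 0 → 0 < g z := fun z hz =>
    lt_of_lt_of_le (mul_pos hr (norm_pos_iff.2 hz)) (hb z)
  have hnn : ∀ z, 0 ≤ g z := fun z => le_trans (by positivity) (hb z)
  let Φ : ℂ → ℂ := fun z => (g z / ‖z‖) • z
  let Ψ : ℂ → ℂ := fun y => (‖y‖ / g y) • y
  have hΦn : ∀ z, ‖Φ z‖ = g z := by
    intro z
    by_cases hz : z = 0
    · simp [Φ, hz, hg0]
    · have h1 : ‖z‖ ≠ 0 := norm_ne_zero_iff.2 hz
      simp only [Φ]
      rw [norm_smul, Real.norm_eq_abs, abs_of_nonneg (div_nonneg (hnn z) (norm_nonneg z))]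
      field_simp
  have hΨn : ∀ y, g (Ψ y) = ‖y‖ := by
    intro y
    by_cases hy : y = 0
    · simp [Ψ, hy, hg0]
    · simp only [Ψ]
      rw [hs _ _ (div_nonneg (norm_nonneg y) (hnn y))]
      have := (hpos y hy).ne'
      field_simp
  have hΨΦ : ∀ z, Ψ (Φ z) = z := by
    intro z
    by_cases hz : z = 0
    · simp [Φ, Ψ, hz]
    · have h1 : ‖z‖ ≠ 0 := norm_ne_zero_iff.2 hz
      have h2 := (hpos z hz).ne'
      have h3 : Ψ (Φ z) = (‖Φ z‖ / g (Φ z)) • Φ z := rfl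
      rw [h3, hΦn]
      have h4 : g (Φ z) = (g z / ‖z‖) * g z := by
        simp only [Φ]
        rw [hs _ _ (div_nonneg (hnn z) (norm_nonneg z))]
      rw [h4]
      simp only [Φ]
      rw [smul_smul]
      have : g z / (g z / ‖z‖ * g z) * (g z / ‖z‖) = 1 := by field_simp
      rw [this, one_smul]
  have hΦΨ : ∀ y, Φ (Ψ y) = y := by
    intro y
    by_cases hy : y = 0
    · simp [Φ, Ψ, hy]
    · have h1 : ‖y‖ ≠ 0 := norm_ne_zero_iff.2 hy
      have h2 := (hpos y hy).ne'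
      have h3 : Φ (Ψ y) = (g (Ψ y) / ‖Ψ y‖) • Ψ y := rfl
      rw [h3, hΨn]
      have h4 : ‖Ψ y‖ = (‖y‖ / g y) * ‖y‖ := by
        simp only [Ψ]
        rw [norm_smul, Real.norm_eq_abs, abs_of_nonneg (div_nonneg (norm_nonneg y) (hnn y))]
      rw [h4]
      simp only [Ψ]
      rw [smul_smul]
      have : ‖y‖ / (‖y‖ / g y * ‖y‖) * (‖y‖ / g y) = 1 := by field_simp
      rw [this, one_smul]
  have hΦc : Continuous Φ := by
    rw [continuous_iff_continuousAt]
    intro z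
    by_cases hz : z = 0
    · subst hz
      rw [ContinuousAt]
      have h0 : Φ 0 = 0 := by simp [Φ]
      rw [h0, tendsto_zero_iff_norm_tendsto_zero]
      have : (fun z => ‖Φ z‖) = g := funext hΦn
      rw [this]
      have := hg.tendsto 0
      rwa [hg0] at this
    · have h1 : ‖z‖ ≠ 0 := norm_ne_zero_iff.2 hz
      exact (hg.continuousAt.div continuous_norm.continuousAt h1).smul continuousAt_id
  have hΨc : Continuous Ψ := by
    rw [continuous_iff_continuousAt]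
    intro z
    by_cases hz : z = 0
    · subst hz
      rw [ContinuousAt]
      have h0 : Ψ 0 = 0 := by simp [Ψ]
      rw [h0, tendsto_zero_iff_norm_tendsto_zero]
      have hle : ∀ y, ‖Ψ y‖ ≤ ‖y‖ / r := by
        intro y
        have h1 := hb (Ψ y)
        rw [hΨn] at h1
        rw [le_div_iff₀ hr]; linarith
      have h2 : Tendsto (fun y : ℂ => ‖y‖ / r) (𝓝 0) (𝓝 0) := by
        have h3 : Continuous (fun y : ℂ => ‖y‖ / r) := by fun_prop
        have := h3.tendsto 0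
        simpa using this
      exact squeeze_zero (fun y => norm_nonneg _) hle h2
    · have h1 : g z ≠ 0 := (hpos z hz).ne'
      exact (continuous_norm.continuousAt.div hg.continuousAt h1).smul continuousAt_id
  let H : ℂ ≃ₜ ℂ := 
    { toFun := Φ
      invFun := Ψ
      left_inv := hΨΦ
      right_inv := hΦΨ
      continuous_toFun := hΦc
      continuous_invFun := hΨc }
  let T : ℂ ≃ₜ ℂ := (Homeomorph.subRight c).trans H
  refine ⟨T.subtype (p := fun z => z ∈ S) (q := fun z => z ∈ closedBall (0 : ℂ) 1) fun z => ?_⟩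
  rw [hS]
  have : T z = Φ (z - c) := rfl
  rw [this, mem_closedBall, dist_zero_right, hΦn]

/-- facts about the gauge of a convex body -/
lemma gauge_facts {K : Set ℂ} (hc : Convex ℝ K) (hk : IsCompact K) (h0 : K ∈ 𝓝 (0 : ℂ)) :
    Continuous (gauge K) ∧ (∀ (t : ℝ) (z : ℂ), 0 ≤ t → gauge K (t • z) = t * gauge K z) ∧
    (∀ z, gauge K z ≤ 1 ↔ z ∈ K) ∧ ∃ r : ℝ, 0 < r ∧ ∀ z, r * ‖z‖ ≤ gauge K z := by
  refine ⟨continuous_gauge hc h0, ?_, ?_, ?_⟩
  · intro t z ht
    rw [gauge_smul_of_nonneg ht]; rfl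
  · intro z
    rw [gauge_le_one_iff_mem_closure hc h0, hk.isClosed.closure_eq]
  · obtain ⟨R, hR⟩ := hk.isBounded.subset_closedBall 0
    have hR' : K ⊆ closedBall 0 (max R 1) := hR.trans (closedBall_subset_closedBall (le_max_left _ _))
    have hpos : (0 : ℝ) < max R 1 := lt_of_lt_of_le one_pos (le_max_right _ _)
    refine ⟨1 / max R 1, by positivity, fun z => ?_⟩
    have := le_gauge_of_subset_closedBall (absorbent_nhds_zero h0) hpos.le hR' (x := z)
    rw [one_div, inv_mul_eq_div]; exact this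

theorem disk_union {K₁ K₂ K₃ : Set ℂ} (c : ℂ) (hc₁ : Convex ℝ K₁) (hc₂ : Convex ℝ K₂)
    (hc₃ : Convex ℝ K₃) (hk₁ : IsCompact K₁) (hk₂ : IsCompact K₂) (hk₃ : IsCompact K₃)
    (h₁ : K₁ ∈ 𝓝 c) (h₂ : K₂ ∈ 𝓝 c) (h₃ : K₃ ∈ 𝓝 c) :
    Nonempty (↥(K₁ ∪ K₂ ∪ K₃) ≃ₜ closedBall (0 : ℂ) 1) := by
  have key : ∀ K : Set ℂ, Convex ℝ K → IsCompact K → K ∈ 𝓝 c → ∃ g : ℂ → ℝ, Continuous g ∧
      (∀ (t : ℝ) (z : ℂ), 0 ≤ t → g (t • z) = t * g z) ∧ (∀ z, g (z - c) ≤ 1 ↔ z ∈ K) ∧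
      ∃ r : ℝ, 0 < r ∧ ∀ z, r * ‖z‖ ≤ g z := by
    intro K hc hk h
    set K' : Set ℂ := (fun z => z - c) '' K with hK'
    have e : K' = (Homeomorph.subRight c) '' K := rfl
    have hc' : Convex ℝ K' := by
      have := hc.translate (-c)
      have e3 : (fun z : ℂ => z - c) = (fun x => -c + x) := by funext z; ring
      rw [hK', e3]; exact this
    have hk' : IsCompact K' := hk.image (by fun_prop)
    have h' : K' ∈ 𝓝 (0 : ℂ) := by
      rw [e]
      have := (Homeomorph.subRight c).isOpenMap.image_mem_nhds h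
      have e2 : (Homeomorph.subRight c) c = 0 := by simp
      rwa [e2] at this
    obtain ⟨a1, a2, a3, a4⟩ := gauge_facts hc' hk' h'
    refine ⟨gauge K', a1, a2, fun z => ?_, a4⟩
    rw [a3, hK']
    constructor
    · rintro ⟨y, hy, hyz⟩
      have : y = z := by simpa using hyz
      rwa [← this]
    · intro hz; exact ⟨z, hz, rfl⟩
  obtain ⟨g₁, a1, b1, d1, r₁, p1, q1⟩ := key K₁ hc₁ hk₁ h₁
  obtain ⟨g₂, a2, b2, d2, r₂, p2, q2⟩ := key K₂ hc₂ hk₂ h₂
  obtain ⟨g₃, a3, b3, d3, r₃, p3, q3⟩ := key K₃ hc₃ hk₃ h₃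
  refine disk_of_gauge (g := fun z => min (min (g₁ z) (g₂ z)) (g₃ z)) ((a1.min a2).min a3) ?_
    (r := min (min r₁ r₂) r₃) (by simp [p1, p2, p3]) ?_ c ?_
  · intro t z ht
    simp only [b1 t z ht, b2 t z ht, b3 t z ht]
    rw [← mul_min_of_nonneg _ _ ht, ← mul_min_of_nonneg _ _ ht]
  · intro z
    simp only [le_min_iff]
    have hz := norm_nonneg z
    refine ⟨⟨?_, ?_⟩, ?_⟩
    · exact (mul_le_mul_of_nonneg_right ((min_le_left _ _).trans (min_le_left _ _)) hz).trans (q1 z)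
    · exact (mul_le_mul_of_nonneg_right ((min_le_left _ _).trans (min_le_right _ _)) hz).trans (q2 z)
    · exact (mul_le_mul_of_nonneg_right (min_le_right _ _) hz).trans (q3 z)
  · intro z
    simp only [min_le_iff, d1, d2, d3, mem_union]

end Pool.Agent.H140.TH
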