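import Pool.Agent.H140.TH.Defs

namespace Pool.Agent.H140.TH
open Set MeasureTheory

lemma ell_mul (p x : ℂ) {u : ℂ} (hu : ‖u‖ = 1) : ell p u (p + x * u) = x.im := by
  have := normSq_u hu
  simp [ell]
  linear_combination x.im * this

lemma mem_tri {p u z : ℂ} (h : z ∈ tri p u) : ∃ x : ℂ, z = p + x * u ∧ (x = 0 ∨ x = 1 ∨ x = w) := by
  simp only [tri, mem_insert_iff, mem_singleton_iff] at h
  rcases h with h | h | h
  · exact ⟨0, by rw [h]; ring, by simp⟩
  · exact ⟨1, by rw [h]; ring, by simp⟩
  · exact ⟨w, by rw [h], by simp⟩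

lemma mem_hexl {p u z : ℂ} (h : z ∈ hex (p + w * u) u) : ∃ x : ℂ, z = p + x * u ∧
    (x = 0 ∨ x = 1 ∨ x = w + 1 ∨ x = 2 * w ∨ x = 2 * w - 1 ∨ x = w - 1) := by
  simp only [hex, mem_insert_iff, mem_singleton_iff, w_sq] at h
  rcases h with h | h | h | h | h | h
  · exact ⟨w + 1, by rw [h]; ring, by simp⟩
  · exact ⟨2 * w, by rw [h]; ring, by simp⟩
  · exact ⟨2 * w - 1, by rw [h]; ring, by simp⟩
  · exact ⟨w - 1, by rw [h]; ring, by simp⟩
  · exact ⟨0, by rw [h]; ring, by simp⟩
  · exact ⟨1, by rw [h]; ring, by simp⟩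

/-- the tiles to the left of the edge from `p` to `p + u` -/
def LTile (p u : ℂ) (V : Set ℂ) : Prop := V = tri p u ∨ V = hex (p + w * u) u

lemma LTile.pos {p u : ℂ} {V : Set ℂ} (h : LTile p u V) (hu : ‖u‖ = 1) {z : ℂ} (hz : z ∈ V) :
    0 ≤ ell p u z ∧ (ell p u z = 0 → z = p ∨ z = p + u) := by
  have hs := s3pos
  rcases h with rfl | rfl
  · obtain ⟨x, rfl, h⟩ := mem_tri hz
    rw [ell_mul _ _ hu]
    rcases h with rfl | rfl | rfl
    · simp
    · simp
    · simp only [w_im]
      refine ⟨by positivity, fun h => ?_⟩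
      exfalso; linarith
  · obtain ⟨x, rfl, h⟩ := mem_hexl hz
    rw [ell_mul _ _ hu]
    rcases h with rfl | rfl | rfl | rfl | rfl | rfl
    · simp
    · simp
    · have e : (w + 1).im = Real.sqrt 3 / 2 := by simp [w_im]
      rw [e]; exact ⟨by positivity, fun h => by linarith⟩
    · have e : (2 * w).im = Real.sqrt 3 := by simp [w_im]; ring
      rw [e]; exact ⟨by positivity, fun h => by linarith⟩
    · have e : (2 * w - 1).im = Real.sqrt 3 := by simp [w_im]; ring
      rw [e]; exact ⟨by positivity, fun h => by linarith⟩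
    · have e : (w - 1).im = Real.sqrt 3 / 2 := by simp [w_im]
      rw [e]; exact ⟨by positivity, fun h => by linarith⟩

lemma LTile.hull {p u : ℂ} {V : Set ℂ} (h : LTile p u V) (hu : ‖u‖ = 1) {z : ℂ}
    (hz : z ∈ convexHull ℝ V) : 0 ≤ ell p u z := by
  have : convexHull ℝ V ⊆ {z | 0 ≤ ell p u z} :=
    convexHull_min (fun z hz => (h.pos hu hz).1) (convex_ell_nonneg p u)
  exact this hz

lemma LTile.mem_p {p u : ℂ} {V : Set ℂ} (h : LTile p u V) : p ∈ V := by
  rcases h with rfl | rfl
  · simp [tri]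
  · simp only [hex, mem_insert_iff, mem_singleton_iff]
    right; right; right; right; left; ring

lemma LTile.mem_q {p u : ℂ} {V : Set ℂ} (h : LTile p u V) : p + u ∈ V := by
  rcases h with rfl | rfl
  · simp [tri]
  · simp only [hex, mem_insert_iff, mem_singleton_iff, w_sq]
    right; right; right; right; right; ring

lemma LTile.mem_center {p u : ℂ} {V : Set ℂ} (h : LTile p u V) :
    p + w * u ∈ convexHull ℝ V := by
  rcases h with rfl | rfl
  · exact subset_convexHull ℝ _ (by simp [tri])
  · have h1 : (p + w * u) + u ∈ convexHull ℝ (hex (p + w * u) u) :=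
      subset_convexHull ℝ _ (by simp [hex])
    have h2 : (p + w * u) - u ∈ convexHull ℝ (hex (p + w * u) u) :=
      subset_convexHull ℝ _ (by simp [hex])
    have := (convex_convexHull ℝ (hex (p + w * u) u)) h1 h2 (a := 1/2) (b := 1/2)
      (by norm_num) (by norm_num) (by norm_num)
    convert this using 1
    apply Complex.ext
    · simp; ring
    · simp; ring

lemma tri_rot (p u : ℂ) : tri (p + u) ((w - 1) * u) = tri p u := by
  have hw := w_mul
  unfold tri
  have e1 : p + u + (w - 1) * u = p + w * u := by ring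
  have e2 : p + u + w * ((w - 1) * u) = p := by linear_combination u * hw
  rw [e1, e2]
  ext z; simp only [mem_insert_iff, mem_singleton_iff]; tauto

lemma tri_rot' (p u : ℂ) : tri (p + w * u) (-(w * u)) = tri p u := by
  have hw := w_mul
  unfold tri
  have e1 : p + w * u + -(w * u) = p := by ring
  have e2 : p + w * u + w * -(w * u) = p + u := by linear_combination (-u) * hw
  rw [e1, e2]
  ext z; simp only [mem_insert_iff, mem_singleton_iff]; tauto

lemma norm_w1 : ‖w - 1‖ = 1 := by
  rw [← w_sq, norm_pow, norm_w, one_pow]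

lemma tri_vertex {p u a : ℂ} (hu : ‖u‖ = 1) (ha : a ∈ tri p u) :
    ∃ v : ℂ, ‖v‖ = 1 ∧ tri p u = tri a v := by
  simp only [tri, mem_insert_iff, mem_singleton_iff] at ha
  rcases ha with h | h | h
  · exact ⟨u, hu, by rw [h]⟩
  · exact ⟨(w - 1) * u, by rw [norm_mul, norm_w1, hu, one_mul], by rw [h, tri_rot]⟩
  · exact ⟨-(w * u), by rw [norm_neg, norm_mul, norm_w, hu, one_mul], by rw [h, tri_rot']⟩

/-- two vertices at distance one span a side, the tile lies to its left or right -/
lemma class_tri {p u a b : ℂ} (hu : ‖u‖ = 1) (ha : a ∈ tri p u) (hb : b ∈ tri p u) (hab : a ≠ b) :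
    LTile a (b - a) (tri p u) ∨ LTile b (a - b) (tri p u) := by
  obtain ⟨v, hv, e⟩ := tri_vertex hu ha
  rw [e] at hb ⊢
  simp only [tri, mem_insert_iff, mem_singleton_iff] at hb
  rcases hb with h | h | h
  · exact absurd h.symm hab
  · left; left; rw [h]; congr 1; ring
  · right; left
    have e1 : a - b = -(w * v) := by rw [h]; ring
    rw [e1, h, tri_rot']

lemma hex_vertex {c u a : ℂ} (hu : ‖u‖ = 1) (ha : a ∈ hex c u) :
    ∃ v : ℂ, ‖v‖ = 1 ∧ hex c u = hex c v ∧ a = c + v := by
  have hw := w_mul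
  have hn := norm_w
  have r1 := hex_rot c u
  have r2 := hex_rot c (w * u)
  have r3 := hex_rot c (w * (w * u))
  have r4 := hex_rot c (w * (w * (w * u)))
  have r5 := hex_rot c (w * (w * (w * (w * u))))
  simp only [hex, mem_insert_iff, mem_singleton_iff] at ha
  rcases ha with h | h | h | h | h | h
  · exact ⟨u, hu, rfl, h⟩
  · exact ⟨w * u, by rw [norm_mul, hn, hu, one_mul], by rw [r1], h⟩
  · exact ⟨w * (w * u), by rw [norm_mul, norm_mul, hn, hu]; norm_num, by rw [r2, r1], by rw [h]; ring⟩
  · refine ⟨w * (w * (w * u)), by rw [norm_mul, norm_mul, norm_mul, hn, hu]; norm_num,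
      by rw [r3, r2, r1], ?_⟩
    rw [h]; linear_combination (-u * w - u) * hw
  · refine ⟨w * (w * (w * (w * u))), by rw [norm_mul, norm_mul, norm_mul, norm_mul, hn, hu]; norm_num,
      by rw [r4, r3, r2, r1], ?_⟩
    rw [h]; linear_combination (-u * w - u) * w * hw
  · refine ⟨w * (w * (w * (w * (w * u)))),
      by rw [norm_mul, norm_mul, norm_mul, norm_mul, norm_mul, hn, hu]; norm_num,
      by rw [r5, r4, r3, r2, r1], ?_⟩
    rw [h]; linear_combination (-u * w - u) * w ^ 2 * hw

/-- two vertices of a hexagon at distance one span a side -/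
lemma class_hex {c u a b : ℂ} (hu : ‖u‖ = 1) (ha : a ∈ hex c u) (hb : b ∈ hex c u)
    (hab : ‖a - b‖ = 1) : LTile a (b - a) (hex c u) ∨ LTile b (a - b) (hex c u) := by
  have hw := w_mul
  obtain ⟨v, hv, e, hav⟩ := hex_vertex hu ha
  have hs := s3
  have key : ∀ x : ℂ, ‖v * x‖ = 1 → Complex.normSq x = 1 := by
    intro x hx
    rw [norm_mul, hv, one_mul] at hx
    rw [← Complex.sq_norm, hx]; norm_num
  rw [e] at hb ⊢
  simp only [hex, mem_insert_iff, mem_singleton_iff, w_sq] at hb
  rcases hb with h | h | h | h | h | h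
  · exfalso
    rw [hav, h] at hab
    simp at hab
  · left; right
    have e1 : a + w * (b - a) = c := by rw [h, hav]; linear_combination v * hw
    have e2 : b - a = w * (w * v) := by rw [h, hav]; linear_combination (-v) * hw
    rw [e1, e2, hex_rot, hex_rot]
  · exfalso
    have := key (2 - w) (by rw [← hab, h, hav]; congr 1; ring)
    rw [Complex.normSq_apply] at this
    simp [w_re, w_im] at this
    nlinarith
  · exfalso
    have := key 2 (by rw [← hab, h, hav]; congr 1; ring)
    rw [Complex.normSq_apply] at this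
    norm_num at this
  · exfalso
    have := key (1 + w) (by rw [← hab, h, hav]; congr 1; ring)
    rw [Complex.normSq_apply] at this
    simp [w_re, w_im] at this
    nlinarith
  · right; right
    have e1 : b + w * (a - b) = c := by rw [h, hav]; linear_combination v * hw
    have e2 : a - b = w * v := by rw [h, hav]; ring
    rw [e1, e2, hex_rot]

lemma class_tile {V : Set ℂ} (hV : IsTri V ∨ IsHex V) {a b : ℂ} (ha : a ∈ V) (hb : b ∈ V)
    (hab : ‖a - b‖ = 1) : LTile a (b - a) V ∨ LTile b (a - b) V := by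
  rcases hV with ⟨p, u, hu, rfl⟩ | ⟨p, u, hu, rfl⟩
  · refine class_tri hu ha hb ?_
    rintro rfl
    simp at hab
  · exact class_hex hu ha hb hab

lemma EdgeToEdge.closed {F : Set (Set ℂ)} (hF : IsFamily F) (hfin : F.Finite) :
    IsClosed (region F) := by
  unfold region
  refine hfin.isClosed_biUnion fun V hV => ?_
  exact ((tile_finite (hF.tile V hV)).isCompact_convexHull ℝ).isClosed

/-- The neighbour of a tile across a side whose midpoint is in the interior of the region. -/
theorem neighbour {P : Set (Set ℂ)} (hP : IsFamily P) (hfin : P.Finite) {p u : ℂ} (hu : ‖u‖ = 1)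
    {Y : Set ℂ} (hY : Y ∈ P) (hl : LTile p u Y) (hm : p + (1 / 2 : ℝ) • u ∈ interior (region P)) :
    ∃ X ∈ P, LTile (p + u) (-u) X := by
  set m : ℂ := p + (1 / 2 : ℝ) • u with hmdef
  have hm' : m = p + ((1/2 : ℝ) : ℂ) * u := by rw [hmdef, Complex.real_smul]
  have hellm : ell p u m = 0 := by rw [hm', ell_mul _ _ hu]; simp
  have hu0 : u ≠ 0 := by rintro rfl; simp at hu
  have hmp : m ≠ p := by
    intro h
    have : ((1/2 : ℝ) : ℂ) * u = 0 := by
      have := hm'.symm.trans h
      linear_combination this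
    simp [hu0] at this
  have hmq : m ≠ p + u := by
    intro h
    have h2 : ((1/2 : ℝ) : ℂ) * u - u = 0 := by
      have := hm'.symm.trans h
      linear_combination this
    have h3 : (((1/2 : ℝ) : ℂ) - 1) * u = 0 := by rw [← h2]; ring
    rcases mul_eq_zero.1 h3 with h4 | h4
    · norm_num at h4
    · exact hu0 h4
  -- another tile contains `m`
  obtain ⟨X, hX, hXY, hmX⟩ : ∃ X ∈ P, X ≠ Y ∧ m ∈ convexHull ℝ X := by
    by_contra hcon
    push Not at hcon
    set K : Set ℂ := ⋃ V ∈ P \ {Y}, convexHull ℝ V with hK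
    have hKc : IsClosed K := by
      refine (hfin.subset sdiff_subset).isClosed_biUnion fun V hV => ?_
      exact ((tile_finite (hP.tile V hV.1)).isCompact_convexHull ℝ).isClosed
    have hmK : m ∉ K := by
      simp only [hK, mem_iUnion, not_exists]
      intro V hV hmV
      exact hcon V hV.1 hV.2 hmV
    have hopen : IsOpen (interior (region P) ∩ Kᶜ) := isOpen_interior.inter hKc.isOpen_compl
    obtain ⟨ε, hε, hball⟩ := Metric.isOpen_iff.1 hopen m ⟨hm, hmK⟩
    set z : ℂ := p + (⟨1 / 2, -(ε / 2)⟩ : ℂ) * u with hz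
    have hzb : z ∈ Metric.ball m ε := by
      rw [Metric.mem_ball, Complex.dist_eq]
      have : z - m = (⟨0, -(ε / 2)⟩ : ℂ) * u := by
        rw [hz, hm']
        have e1 : (⟨1 / 2, -(ε / 2)⟩ : ℂ) = ((1/2 : ℝ) : ℂ) + ⟨0, -(ε / 2)⟩ := by
          apply Complex.ext <;> simp
        rw [e1]; ring
      rw [this, norm_mul, hu, mul_one]
      have e2 : (⟨0, -(ε / 2)⟩ : ℂ) = ((-(ε / 2) : ℝ) : ℂ) * Complex.I := by
        apply Complex.ext <;> simp
      rw [e2, norm_mul, Complex.norm_I, mul_one, Complex.norm_real, Real.norm_eq_abs, abs_neg,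
        abs_of_pos (by positivity)]
      linarith
    obtain ⟨h1, h2⟩ := hball hzb
    have h3 : z ∈ region P := interior_subset h1
    simp only [region, mem_iUnion] at h3
    obtain ⟨V, hV, hzV⟩ := h3
    by_cases hVY : V = Y
    · subst hVY
      have := hl.hull hu hzV
      rw [hz, ell_mul _ _ hu] at this
      simp at this
      linarith
    · apply h2
      simp only [hK, mem_iUnion]
      exact ⟨V, ⟨hV, hVY⟩, hzV⟩
  have hmY : m ∈ convexHull ℝ Y := by
    have h1 : p ∈ convexHull ℝ Y := subset_convexHull ℝ _ hl.mem_p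
    have h2 : p + u ∈ convexHull ℝ Y := subset_convexHull ℝ _ hl.mem_q
    have := (convex_convexHull ℝ Y) h1 h2 (a := 1/2) (b := 1/2)
      (by norm_num) (by norm_num) (by norm_num)
    convert this using 1
    rw [hm']
    apply Complex.ext
    · simp; ring
    · simp; ring
  have hmXY : m ∈ convexHull ℝ X ∩ convexHull ℝ Y := ⟨hmX, hmY⟩
  have hmYv : m ∉ Y := by
    intro h
    rcases (hl.pos hu h).2 hellm with h | h
    · exact hmp h
    · exact hmq h
  rcases hP.edge X hX Y hY hXY with h0 | ⟨a, ha, h0⟩ | ⟨a, ha, b, hb, hab, h0⟩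
  · rw [h0] at hmXY; exact absurd hmXY (notMem_empty _)
  · rw [h0, mem_singleton_iff] at hmXY
    exact absurd (hmXY ▸ ha.2) hmYv
  · rw [h0] at hmXY
    obtain ⟨s, t, hs, ht, hst, hstm⟩ := hmXY
    have hfa := hl.pos hu ha.2
    have hfb := hl.pos hu hb.2
    have hsum := ell_combo p u a b s t hst
    rw [hstm, hellm] at hsum
    have hs0 : s ≠ 0 := by
      rintro rfl
      have : t = 1 := by linarith
      subst this
      simp at hstm
      exact hmYv (hstm ▸ hb.2)
    have ht0 : t ≠ 0 := by
      rintro rfl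
      have : s = 1 := by linarith
      subst this
      simp at hstm
      exact hmYv (hstm ▸ ha.2)
    have hs1 : 0 < s := lt_of_le_of_ne hs (Ne.symm hs0)
    have ht1 : 0 < t := lt_of_le_of_ne ht (Ne.symm ht0)
    have ha0 : ell p u a = 0 := by
      have := mul_nonneg hs hfa.1
      have := mul_nonneg ht hfb.1
      have h5 : s * ell p u a = 0 := by linarith
      exact (mul_eq_zero.1 h5).resolve_left hs0
    have hb0 : ell p u b = 0 := by
      have := mul_nonneg hs hfa.1
      have := mul_nonneg ht hfb.1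
      have h5 : t * ell p u b = 0 := by linarith
      exact (mul_eq_zero.1 h5).resolve_left ht0
    have hab' : a ≠ b := by rintro rfl; simp at hab
    -- `p` and `p + u` are vertices of `X`
    have hpX : p ∈ X ∧ p + u ∈ X := by
      rcases hfa.2 ha0 with h | h <;> rcases hfb.2 hb0 with h' | h'
      · exact absurd (h.trans h'.symm) hab'
      · exact ⟨h ▸ ha.1, h' ▸ hb.1⟩
      · exact ⟨h' ▸ hb.1, h ▸ ha.1⟩
      · exact absurd (h.trans h'.symm) hab'
    have hc := class_tile (hP.tile X hX) hpX.1 hpX.2 (by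
      have : p - (p + u) = -u := by ring
      rw [this, norm_neg, hu])
    rcases hc with hc | hc
    · exfalso
      have e : p + u - p = u := by ring
      rw [e] at hc
      have h1 : p + w * u ∈ convexHull ℝ X ∩ convexHull ℝ Y := ⟨hc.mem_center, hl.mem_center⟩
      rw [h0] at h1
      obtain ⟨s', t', hs', ht', hst', hstm'⟩ := h1
      have hsum' := ell_combo p u a b s' t' hst'
      rw [hstm', ell_w _ _ hu, ha0, hb0] at hsum'
      have := s3pos
      linarith
    · refine ⟨X, hX, ?_⟩
      have e : p - (p + u) = -u := by ring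
      rwa [e] at hc

end Pool.Agent.H140.TH
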