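import Pool.Agent.H140.TH.Defs

namespace Pool.Agent.H140.TH
open Set MeasureTheory

/-- lattice point -/
noncomputable def L (x y : ℤ) : ℂ := (x : ℂ) + (y : ℂ) * w

noncomputable def bb : ℂ →ₗ[ℝ] ℝ := Complex.reLm - (1 / Real.sqrt 3) • Complex.imLm
noncomputable def hh : ℂ →ₗ[ℝ] ℝ := (2 / Real.sqrt 3) • Complex.imLm

lemma bb_apply (z : ℂ) : bb z = z.re - z.im / Real.sqrt 3 := by
  simp [bb, div_eq_inv_mul]
lemma hh_apply (z : ℂ) : hh z = 2 * z.im / Real.sqrt 3 := by
  simp [hh]; ring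

lemma coords (z : ℂ) : z = (bb z : ℂ) + (hh z : ℂ) * w := by
  have hs := s3pos
  have h2 := s3
  apply Complex.ext
  · simp [bb_apply, hh_apply, w_re, w_im]; field_simp; ring
  · simp [bb_apply, hh_apply, w_re, w_im]; field_simp

lemma bb_L' (x y : ℝ) : bb ((x : ℂ) + (y : ℂ) * w) = x := by
  have hs := s3pos
  simp [bb_apply, w_re, w_im]; field_simp; ring
lemma hh_L' (x y : ℝ) : hh ((x : ℂ) + (y : ℂ) * w) = y := by
  have hs := s3pos
  simp [hh_apply, w_re, w_im]; field_simp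

lemma bb_L (x y : ℤ) : bb (L x y) = x := by
  have := bb_L' x y
  unfold L; exact_mod_cast this
lemma hh_L (x y : ℤ) : hh (L x y) = y := by
  have := hh_L' x y
  unfold L; exact_mod_cast this

lemma ext_bh {z z' : ℂ} (h1 : bb z = bb z') (h2 : hh z = hh z') : z = z' := by
  rw [coords z, coords z', h1, h2]

lemma L_inj {x y x' y' : ℤ} : L x y = L x' y' ↔ x = x' ∧ y = y' := by
  constructor
  · intro h
    have h1 := congrArg bb h
    have h2 := congrArg hh h
    rw [bb_L, bb_L] at h1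
    rw [hh_L, hh_L] at h2
    exact ⟨by exact_mod_cast h1, by exact_mod_cast h2⟩
  · rintro ⟨rfl, rfl⟩; rfl

lemma comb3 {S : Set ℂ} (hS : Convex ℝ S) {a b c : ℂ} (ha : a ∈ S) (hb : b ∈ S) (hc : c ∈ S)
    {α β γ : ℝ} (h1 : 0 ≤ α) (h2 : 0 ≤ β) (h3 : 0 ≤ γ) (h : α + β + γ = 1) :
    (α : ℂ) * a + (β : ℂ) * b + (γ : ℂ) * c ∈ S := by
  have := hS.sum_mem (t := (Finset.univ : Finset (Fin 3)))
      (w := ![α, β, γ]) (z := ![a, b, c])
      (by intro i _; fin_cases i
          · exact h1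
          · exact h2
          · exact h3)
      (by simp [Fin.sum_univ_three]; exact h)
      (by intro i _; fin_cases i
          · exact ha
          · exact hb
          · exact hc)
  simpa [Fin.sum_univ_three] using this

/-! the three kinds of tiles -/

/-- vertices of the hexagon with centre `L b h` -/
lemma hex_eq (b h : ℤ) : hex (L b h) 1 =
    {L (b + 1) h, L b (h + 1), L (b - 1) (h + 1), L (b - 1) h, L b (h - 1), L (b + 1) (h - 1)} := by
  unfold hex L
  rw [w_sq]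
  push_cast
  have e1 : (b : ℂ) + h * w + 1 = b + 1 + h * w := by ring
  have e2 : (b : ℂ) + h * w + w * 1 = b + (h + 1) * w := by ring
  have e3 : (b : ℂ) + h * w + (w - 1) * 1 = b - 1 + (h + 1) * w := by ring
  have e4 : (b : ℂ) + h * w - 1 = b - 1 + h * w := by ring
  have e5 : (b : ℂ) + h * w - w * 1 = b + (h - 1) * w := by ring
  have e6 : (b : ℂ) + h * w - (w - 1) * 1 = b + 1 + (h - 1) * w := by ring
  rw [e1, e2, e3, e4, e5, e6]

lemma triD_eq (b h : ℤ) : tri (L (b + 1) h) w = {L (b + 1) h, L (b + 1) (h + 1), L b (h + 1)} := by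
  unfold tri L
  rw [w_mul]
  push_cast
  have e2 : (b : ℂ) + 1 + h * w + w = b + 1 + (h + 1) * w := by ring
  have e3 : (b : ℂ) + 1 + h * w + (w - 1) = b + (h + 1) * w := by ring
  rw [e2, e3]

lemma triU_eq (b h : ℤ) : tri (L (b + 1) h) (-w) =
    {L (b + 1) h, L (b + 1) (h - 1), L (b + 2) (h - 1)} := by
  have hw := w_mul
  unfold tri L
  push_cast
  have e2 : (b : ℂ) + 1 + h * w + -w = b + 1 + (h - 1) * w := by ring
  have e3 : (b : ℂ) + 1 + h * w + w * -w = b + 2 + (h - 1) * w := by linear_combination (-1 : ℂ) * hw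
  rw [e2, e3]

lemma memH {x y b h : ℤ} : L x y ∈ hex (L b h) 1 ↔
    (x = b + 1 ∧ y = h) ∨ (x = b ∧ y = h + 1) ∨ (x = b - 1 ∧ y = h + 1) ∨ (x = b - 1 ∧ y = h) ∨
    (x = b ∧ y = h - 1) ∨ (x = b + 1 ∧ y = h - 1) := by
  rw [hex_eq]
  simp only [mem_insert_iff, mem_singleton_iff, L_inj]

lemma memD {x y b h : ℤ} : L x y ∈ tri (L (b + 1) h) w ↔
    (x = b + 1 ∧ y = h) ∨ (x = b + 1 ∧ y = h + 1) ∨ (x = b ∧ y = h + 1) := by
  rw [triD_eq]
  simp only [mem_insert_iff, mem_singleton_iff, L_inj]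

lemma memU {x y b h : ℤ} : L x y ∈ tri (L (b + 1) h) (-w) ↔
    (x = b + 1 ∧ y = h) ∨ (x = b + 1 ∧ y = h - 1) ∨ (x = b + 2 ∧ y = h - 1) := by
  rw [triU_eq]
  simp only [mem_insert_iff, mem_singleton_iff, L_inj]

lemma isLatH {b h : ℤ} {v : ℂ} (hv : v ∈ hex (L b h) 1) : ∃ x y : ℤ, v = L x y := by
  rw [hex_eq] at hv
  simp only [mem_insert_iff, mem_singleton_iff] at hv
  rcases hv with h | h | h | h | h | h <;> exact ⟨_, _, h⟩

lemma isLatD {b h : ℤ} {v : ℂ} (hv : v ∈ tri (L (b + 1) h) w) : ∃ x y : ℤ, v = L x y := by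
  rw [triD_eq] at hv
  simp only [mem_insert_iff, mem_singleton_iff] at hv
  rcases hv with h | h | h <;> exact ⟨_, _, h⟩

lemma isLatU {b h : ℤ} {v : ℂ} (hv : v ∈ tri (L (b + 1) h) (-w)) : ∃ x y : ℤ, v = L x y := by
  rw [triU_eq] at hv
  simp only [mem_insert_iff, mem_singleton_iff] at hv
  rcases hv with h | h | h <;> exact ⟨_, _, h⟩

/-- hexagon by inequalities -/
lemma hullH {b h : ℤ} {z : ℂ} : z ∈ convexHull ℝ (hex (L b h) 1) ↔
    ((b : ℝ) - 1 ≤ bb z ∧ bb z ≤ b + 1) ∧ ((h : ℝ) - 1 ≤ hh z ∧ hh z ≤ h + 1) ∧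
    ((b : ℝ) + h - 1 ≤ bb z + hh z ∧ bb z + hh z ≤ b + h + 1) := by
  constructor
  · intro hz
    have hsub : convexHull ℝ (hex (L b h) 1) ⊆
        ({z | (b : ℝ) - 1 ≤ bb z} ∩ {z | bb z ≤ b + 1}) ∩ (({z | (h : ℝ) - 1 ≤ hh z} ∩ {z | hh z ≤ h + 1}) ∩
        ({z | (b : ℝ) + h - 1 ≤ (bb + hh) z} ∩ {z | (bb + hh) z ≤ b + h + 1})) := by
      refine convexHull_min ?_ ?_
      · intro v hv
        obtain ⟨x, y, rfl⟩ := isLatH hv
        rw [memH] at hv
        simp only [mem_inter_iff, mem_ofPred_eq, LinearMap.add_apply, bb_L, hh_L]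
        rcases hv with ⟨rfl, rfl⟩ | ⟨rfl, rfl⟩ | ⟨rfl, rfl⟩ | ⟨rfl, rfl⟩ | ⟨rfl, rfl⟩ | ⟨rfl, rfl⟩ <;>
          push_cast <;> refine ⟨⟨?_, ?_⟩, ⟨?_, ?_⟩, ?_, ?_⟩ <;> linarith
      · exact ((convex_halfSpace_ge bb.isLinear _).inter (convex_halfSpace_le bb.isLinear _)).inter
          (((convex_halfSpace_ge hh.isLinear _).inter (convex_halfSpace_le hh.isLinear _)).inter
          ((convex_halfSpace_ge (bb + hh).isLinear _).inter (convex_halfSpace_le (bb + hh).isLinear _)))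
    have := hsub hz
    simpa only [mem_inter_iff, mem_ofPred_eq, LinearMap.add_apply] using this
  · rintro ⟨⟨h1, h2⟩, ⟨h3, h4⟩, h5, h6⟩
    have hS := convex_convexHull ℝ (hex (L b h) 1)
    have hc : L b h ∈ convexHull ℝ (hex (L b h) 1) := by
      have h1 : L (b + 1) h ∈ convexHull ℝ (hex (L b h) 1) := subset_convexHull ℝ _ (by rw [memH]; omega)
      have h2 : L (b - 1) h ∈ convexHull ℝ (hex (L b h) 1) := subset_convexHull ℝ _ (by rw [memH]; omega)
      have := comb3 hS h1 h2 h2 (α := 1/2) (β := 1/2) (γ := 0) (by norm_num) (by norm_num) le_rfl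
        (by norm_num)
      convert this using 1
      unfold L; push_cast; ring
    have m : ∀ x y : ℤ, L x y ∈ hex (L b h) 1 → L x y ∈ convexHull ℝ (hex (L b h) 1) :=
      fun x y h => subset_convexHull ℝ _ h
    have hz := coords z
    set X := bb z
    set Y := hh z
    rw [hz]
    rcases le_total 0 (X - b) with hb | hb <;> rcases le_total 0 (Y - h) with hh' | hh' <;>
      rcases le_total 0 (X - b + (Y - h)) with ha | ha
    · have := comb3 hS (m (b + 1) h (by rw [memH]; omega)) (m b (h + 1) (by rw [memH]; omega)) hc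
        (α := X - b) (β := Y - h) (γ := 1 - (X - b) - (Y - h)) (by linarith) (by linarith)
        (by linarith) (by ring)
      convert this using 1
      unfold L; push_cast; ring
    · have := comb3 hS (m (b + 1) h (by rw [memH]; omega)) (m b (h + 1) (by rw [memH]; omega)) hc
        (α := X - b) (β := Y - h) (γ := 1 - (X - b) - (Y - h)) (by linarith) (by linarith)
        (by linarith) (by ring)
      convert this using 1
      unfold L; push_cast; ring
    · -- b ≥ 0, h ≤ 0, a ≥ 0 : between (1,0) and (1,-1)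
      have := comb3 hS (m (b + 1) h (by rw [memH]; omega)) (m (b + 1) (h - 1) (by rw [memH]; omega)) hc
        (α := X - b + (Y - h)) (β := -(Y - h)) (γ := 1 - (X - b)) (by linarith) (by linarith)
        (by linarith) (by ring)
      convert this using 1
      unfold L; push_cast; ring
    · -- b ≥ 0, h ≤ 0, a ≤ 0 : between (1,-1) and (0,-1)
      have := comb3 hS (m (b + 1) (h - 1) (by rw [memH]; omega)) (m b (h - 1) (by rw [memH]; omega)) hc
        (α := X - b) (β := -(X - b + (Y - h))) (γ := 1 + (Y - h)) (by linarith) (by linarith)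
        (by linarith) (by ring)
      convert this using 1
      unfold L; push_cast; ring
    · -- b ≤ 0, h ≥ 0, a ≥ 0
      have := comb3 hS (m b (h + 1) (by rw [memH]; omega)) (m (b - 1) (h + 1) (by rw [memH]; omega)) hc
        (α := X - b + (Y - h)) (β := -(X - b)) (γ := 1 - (Y - h)) (by linarith) (by linarith)
        (by linarith) (by ring)
      convert this using 1
      unfold L; push_cast; ring
    · have := comb3 hS (m (b - 1) (h + 1) (by rw [memH]; omega)) (m (b - 1) h (by rw [memH]; omega)) hc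
        (α := Y - h) (β := -(X - b + (Y - h))) (γ := 1 + (X - b)) (by linarith) (by linarith)
        (by linarith) (by ring)
      convert this using 1
      unfold L; push_cast; ring
    · have := comb3 hS (m (b - 1) h (by rw [memH]; omega)) (m b (h - 1) (by rw [memH]; omega)) hc
        (α := -(X - b)) (β := -(Y - h)) (γ := 1 + (X - b) + (Y - h)) (by linarith) (by linarith)
        (by linarith) (by ring)
      convert this using 1
      unfold L; push_cast; ring
    · have := comb3 hS (m (b - 1) h (by rw [memH]; omega)) (m b (h - 1) (by rw [memH]; omega)) hc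
        (α := -(X - b)) (β := -(Y - h)) (γ := 1 + (X - b) + (Y - h)) (by linarith) (by linarith)
        (by linarith) (by ring)
      convert this using 1
      unfold L; push_cast; ring

lemma hullD {b h : ℤ} {z : ℂ} : z ∈ convexHull ℝ (tri (L (b + 1) h) w) ↔
    bb z ≤ b + 1 ∧ hh z ≤ h + 1 ∧ (b : ℝ) + h + 1 ≤ bb z + hh z := by
  constructor
  · intro hz
    have hsub : convexHull ℝ (tri (L (b + 1) h) w) ⊆
        {z | bb z ≤ (b : ℝ) + 1} ∩ ({z | hh z ≤ (h : ℝ) + 1} ∩ {z | (b : ℝ) + h + 1 ≤ (bb + hh) z}) := by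
      refine convexHull_min ?_ ?_
      · intro v hv
        obtain ⟨x, y, rfl⟩ := isLatD hv
        rw [memD] at hv
        simp only [mem_inter_iff, mem_ofPred_eq, LinearMap.add_apply, bb_L, hh_L]
        rcases hv with ⟨rfl, rfl⟩ | ⟨rfl, rfl⟩ | ⟨rfl, rfl⟩ <;>
          push_cast <;> refine ⟨?_, ?_, ?_⟩ <;> linarith
      · exact (convex_halfSpace_le bb.isLinear _).inter
          ((convex_halfSpace_le hh.isLinear _).inter (convex_halfSpace_ge (bb + hh).isLinear _))
    have := hsub hz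
    simpa only [mem_inter_iff, mem_ofPred_eq, LinearMap.add_apply] using this
  · rintro ⟨h1, h2, h3⟩
    have hS := convex_convexHull ℝ (tri (L (b + 1) h) w)
    have m : ∀ x y : ℤ, L x y ∈ tri (L (b + 1) h) w → L x y ∈ convexHull ℝ (tri (L (b + 1) h) w) :=
      fun x y h => subset_convexHull ℝ _ h
    have hz := coords z
    set X := bb z
    set Y := hh z
    rw [hz]
    have := comb3 hS (m (b + 1) h (by rw [memD]; omega)) (m (b + 1) (h + 1) (by rw [memD]; omega))
      (m b (h + 1) (by rw [memD]; omega))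
      (α := 1 - (Y - h)) (β := (X - b) + (Y - h) - 1) (γ := 1 - (X - b)) (by linarith) (by linarith)
      (by linarith) (by ring)
    convert this using 1
    unfold L; push_cast; ring

lemma hullU {b h : ℤ} {z : ℂ} : z ∈ convexHull ℝ (tri (L (b + 1) h) (-w)) ↔
    (b : ℝ) + 1 ≤ bb z ∧ (h : ℝ) - 1 ≤ hh z ∧ bb z + hh z ≤ b + h + 1 := by
  constructor
  · intro hz
    have hsub : convexHull ℝ (tri (L (b + 1) h) (-w)) ⊆
        {z | (b : ℝ) + 1 ≤ bb z} ∩ ({z | (h : ℝ) - 1 ≤ hh z} ∩ {z | (bb + hh) z ≤ (b : ℝ) + h + 1}) := by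
      refine convexHull_min ?_ ?_
      · intro v hv
        obtain ⟨x, y, rfl⟩ := isLatU hv
        rw [memU] at hv
        simp only [mem_inter_iff, mem_ofPred_eq, LinearMap.add_apply, bb_L, hh_L]
        rcases hv with ⟨rfl, rfl⟩ | ⟨rfl, rfl⟩ | ⟨rfl, rfl⟩ <;>
          push_cast <;> refine ⟨?_, ?_, ?_⟩ <;> linarith
      · exact (convex_halfSpace_ge bb.isLinear _).inter
          ((convex_halfSpace_ge hh.isLinear _).inter (convex_halfSpace_le (bb + hh).isLinear _))
    have := hsub hz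
    simpa only [mem_inter_iff, mem_ofPred_eq, LinearMap.add_apply] using this
  · rintro ⟨h1, h2, h3⟩
    have hS := convex_convexHull ℝ (tri (L (b + 1) h) (-w))
    have m : ∀ x y : ℤ, L x y ∈ tri (L (b + 1) h) (-w) →
        L x y ∈ convexHull ℝ (tri (L (b + 1) h) (-w)) :=
      fun x y h => subset_convexHull ℝ _ h
    have hz := coords z
    set X := bb z
    set Y := hh z
    rw [hz]
    have := comb3 hS (m (b + 1) h (by rw [memU]; omega)) (m (b + 1) (h - 1) (by rw [memU]; omega))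
      (m (b + 2) (h - 1) (by rw [memU]; omega))
      (α := 1 + (Y - h)) (β := 1 - (X - b) - (Y - h)) (γ := X - b - 1) (by linarith) (by linarith)
      (by linarith) (by ring)
    convert this using 1
    unfold L; push_cast; ring

/-! criteria for being edge-to-edge -/

lemma EdgeToEdge.symm {V W : Set ℂ} (h : EdgeToEdge V W) : EdgeToEdge W V := by
  unfold EdgeToEdge at *
  rw [inter_comm (convexHull ℝ W), inter_comm W]
  exact h

lemma e_point {V W : Set ℂ} (x y : ℤ) (hV : L x y ∈ V) (hW : L x y ∈ W)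
    (h : ∀ z ∈ convexHull ℝ V, z ∈ convexHull ℝ W → bb z = x ∧ hh z = y) : EdgeToEdge V W := by
  right; left
  refine ⟨L x y, ⟨hV, hW⟩, ?_⟩
  ext z
  simp only [mem_singleton_iff]
  constructor
  · rintro ⟨h1, h2⟩
    obtain ⟨h3, h4⟩ := h z h1 h2
    exact ext_bh (by rw [h3, bb_L]) (by rw [h4, hh_L])
  · rintro rfl
    exact ⟨subset_convexHull ℝ _ hV, subset_convexHull ℝ _ hW⟩

lemma e_seg {V W : Set ℂ} (x y x' y' : ℤ) (hV : L x y ∈ V) (hW : L x y ∈ W)
    (hV' : L x' y' ∈ V) (hW' : L x' y' ∈ W) (hn : ‖L x y - L x' y'‖ = 1)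
    (h : ∀ z ∈ convexHull ℝ V, z ∈ convexHull ℝ W →
      ∃ t : ℝ, 0 ≤ t ∧ t ≤ 1 ∧ bb z = (1 - t) * x + t * x' ∧ hh z = (1 - t) * y + t * y') :
    EdgeToEdge V W := by
  right; right
  refine ⟨L x y, ⟨hV, hW⟩, L x' y', ⟨hV', hW'⟩, hn, ?_⟩
  apply Subset.antisymm
  · rintro z ⟨h1, h2⟩
    obtain ⟨t, ht0, ht1, h3, h4⟩ := h z h1 h2
    refine ⟨1 - t, t, by linarith, ht0, by ring, ?_⟩
    apply ext_bh
    · rw [map_add, map_smul, map_smul, bb_L, bb_L, h3]; simp
    · rw [map_add, map_smul, map_smul, hh_L, hh_L, h4]; simp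
  · exact subset_inter
      ((convex_convexHull ℝ V).segment_subset (subset_convexHull ℝ _ hV) (subset_convexHull ℝ _ hV'))
      ((convex_convexHull ℝ W).segment_subset (subset_convexHull ℝ _ hW) (subset_convexHull ℝ _ hW'))

lemma norm_hor (x y : ℤ) : ‖L x y - L (x + 1) y‖ = 1 := by
  have : L x y - L (x + 1) y = -1 := by unfold L; push_cast; ring
  rw [this]; simp

lemma norm_b (x y : ℤ) : ‖L x y - L x (y + 1)‖ = 1 := by
  have : L x y - L x (y + 1) = -w := by unfold L; push_cast; ring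
  rw [this, norm_neg, norm_w]

lemma norm_a (x y : ℤ) : ‖L x y - L (x - 1) (y + 1)‖ = 1 := by
  have : L x y - L (x - 1) (y + 1) = -(w ^ 2) := by rw [w_sq]; unfold L; push_cast; ring
  rw [this, norm_neg, norm_pow, norm_w, one_pow]

lemma e_h {V W : Set ℂ} (x y : ℤ) (hV : L x y ∈ V) (hW : L x y ∈ W)
    (hV' : L (x + 1) y ∈ V) (hW' : L (x + 1) y ∈ W)
    (h : ∀ z ∈ convexHull ℝ V, z ∈ convexHull ℝ W → hh z = y ∧ (x : ℝ) ≤ bb z ∧ bb z ≤ x + 1) :
    EdgeToEdge V W := by
  refine e_seg x y (x + 1) y hV hW hV' hW' (norm_hor _ _) fun z h1 h2 => ?_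
  obtain ⟨h3, h4, h5⟩ := h z h1 h2
  exact ⟨bb z - x, by linarith, by linarith, by push_cast; ring, by rw [h3]; ring⟩

lemma e_b {V W : Set ℂ} (x y : ℤ) (hV : L x y ∈ V) (hW : L x y ∈ W)
    (hV' : L x (y + 1) ∈ V) (hW' : L x (y + 1) ∈ W)
    (h : ∀ z ∈ convexHull ℝ V, z ∈ convexHull ℝ W → bb z = x ∧ (y : ℝ) ≤ hh z ∧ hh z ≤ y + 1) :
    EdgeToEdge V W := by
  refine e_seg x y x (y + 1) hV hW hV' hW' (norm_b _ _) fun z h1 h2 => ?_
  obtain ⟨h3, h4, h5⟩ := h z h1 h2
  exact ⟨hh z - y, by linarith, by linarith, by rw [h3]; ring, by push_cast; ring⟩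

lemma e_a {V W : Set ℂ} (x y : ℤ) (hV : L x y ∈ V) (hW : L x y ∈ W)
    (hV' : L (x - 1) (y + 1) ∈ V) (hW' : L (x - 1) (y + 1) ∈ W)
    (h : ∀ z ∈ convexHull ℝ V, z ∈ convexHull ℝ W →
      bb z + hh z = x + y ∧ (y : ℝ) ≤ hh z ∧ hh z ≤ y + 1) :
    EdgeToEdge V W := by
  refine e_seg x y (x - 1) (y + 1) hV hW hV' hW' (norm_a _ _) fun z h1 h2 => ?_
  obtain ⟨h3, h4, h5⟩ := h z h1 h2
  exact ⟨hh z - y, by linarith, by linarith, by push_cast; linarith, by push_cast; ring⟩

end Pool.Agent.H140.TH
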