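import Pool.Agent.H140.TH.Lat

namespace Pool.Agent.H140.TH
open Set MeasureTheory

set_option linter.dupNamespace false in
noncomputable def TH (k j : ℤ) : Set ℂ := hex (L (2 * k - j) (2 * j)) 1
noncomputable def TD (k j : ℤ) : Set ℂ := tri (L (2 * k - j + 1) (2 * j)) w
noncomputable def TU (k j : ℤ) : Set ℂ := tri (L (2 * k - j + 1) (2 * j)) (-w)

/-- the tiling in which all rows are mirror images of their neighbours -/
def F : Set (Set ℂ) := {V | ∃ k j : ℤ, V = TH k j ∨ V = TD k j ∨ V = TU k j}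

lemma mTH {x y k j : ℤ} : L x y ∈ TH k j ↔
    (x = 2 * k - j + 1 ∧ y = 2 * j) ∨ (x = 2 * k - j ∧ y = 2 * j + 1) ∨
    (x = 2 * k - j - 1 ∧ y = 2 * j + 1) ∨ (x = 2 * k - j - 1 ∧ y = 2 * j) ∨
    (x = 2 * k - j ∧ y = 2 * j - 1) ∨ (x = 2 * k - j + 1 ∧ y = 2 * j - 1) := memH

lemma mTD {x y k j : ℤ} : L x y ∈ TD k j ↔
    (x = 2 * k - j + 1 ∧ y = 2 * j) ∨ (x = 2 * k - j + 1 ∧ y = 2 * j + 1) ∨
    (x = 2 * k - j ∧ y = 2 * j + 1) := memD

lemma mTU {x y k j : ℤ} : L x y ∈ TU k j ↔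
    (x = 2 * k - j + 1 ∧ y = 2 * j) ∨ (x = 2 * k - j + 1 ∧ y = 2 * j - 1) ∨
    (x = 2 * k - j + 2 ∧ y = 2 * j - 1) := memU

lemma hTH {k j : ℤ} {z : ℂ} : z ∈ convexHull ℝ (TH k j) ↔
    ((2 * k - j : ℝ) - 1 ≤ bb z ∧ bb z ≤ 2 * k - j + 1) ∧ ((2 * j : ℝ) - 1 ≤ hh z ∧ hh z ≤ 2 * j + 1) ∧
    ((2 * k - j : ℝ) + 2 * j - 1 ≤ bb z + hh z ∧ bb z + hh z ≤ 2 * k - j + 2 * j + 1) := by
  unfold TH
  rw [hullH]; push_cast; rfl

lemma hTD {k j : ℤ} {z : ℂ} : z ∈ convexHull ℝ (TD k j) ↔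
    bb z ≤ 2 * k - j + 1 ∧ hh z ≤ 2 * j + 1 ∧ (2 * k - j : ℝ) + 2 * j + 1 ≤ bb z + hh z := by
  unfold TD
  rw [hullD]; push_cast; rfl

lemma hTU {k j : ℤ} {z : ℂ} : z ∈ convexHull ℝ (TU k j) ↔
    (2 * k - j : ℝ) + 1 ≤ bb z ∧ (2 * j : ℝ) - 1 ≤ hh z ∧ bb z + hh z ≤ 2 * k - j + 2 * j + 1 := by
  unfold TU
  rw [hullU]; push_cast; rfl

lemma edge_of_nonempty {V W : Set ℂ} (h : ∀ z, z ∈ convexHull ℝ V → z ∈ convexHull ℝ W →
    EdgeToEdge V W) : EdgeToEdge V W := by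
  by_cases hne : (convexHull ℝ V ∩ convexHull ℝ W).Nonempty
  · obtain ⟨z, h1, h2⟩ := hne
    exact h z h1 h2
  · left; exact not_nonempty_iff_eq_empty.1 hne

lemma eHH {k j k' j' : ℤ} (hne : ¬ (k = k' ∧ j = j')) : EdgeToEdge (TH k j) (TH k' j') := by
  refine edge_of_nonempty fun z h1 h2 => ?_
  rw [hTH] at h1 h2
  obtain ⟨⟨a1, a2⟩, ⟨a3, a4⟩, a5, a6⟩ := h1
  obtain ⟨⟨b1, b2⟩, ⟨b3, b4⟩, b5, b6⟩ := h2
  have c1 : 2 * k' - j' - 1 ≤ 2 * k - j + 1 := by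
    have : (2 * k' - j' - 1 : ℝ) ≤ 2 * k - j + 1 := by linarith
    exact_mod_cast this
  have c2 : 2 * k - j - 1 ≤ 2 * k' - j' + 1 := by
    have : (2 * k - j - 1 : ℝ) ≤ 2 * k' - j' + 1 := by linarith
    exact_mod_cast this
  have c3 : 2 * j' - 1 ≤ 2 * j + 1 := by
    have : (2 * j' - 1 : ℝ) ≤ 2 * j + 1 := by linarith
    exact_mod_cast this
  have c4 : 2 * j - 1 ≤ 2 * j' + 1 := by
    have : (2 * j - 1 : ℝ) ≤ 2 * j' + 1 := by linarith
    exact_mod_cast this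
  have c5 : 2 * k' - j' + 2 * j' - 1 ≤ 2 * k - j + 2 * j + 1 := by
    have : (2 * k' - j' + 2 * j' - 1 : ℝ) ≤ 2 * k - j + 2 * j + 1 := by linarith
    exact_mod_cast this
  have c6 : 2 * k - j + 2 * j - 1 ≤ 2 * k' - j' + 2 * j' + 1 := by
    have : (2 * k - j + 2 * j - 1 : ℝ) ≤ 2 * k' - j' + 2 * j' + 1 := by linarith
    exact_mod_cast this
  have hcase : (k' = k + 1 ∧ j' = j) ∨ (k' = k - 1 ∧ j' = j) ∨ (k' = k ∧ j' = j + 1) ∨
      (k' = k ∧ j' = j - 1) := by omega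
  clear a1 a2 a3 a4 a5 a6 b1 b2 b3 b4 b5 b6 c1 c2 c3 c4 c5 c6 hne
  rcases hcase with ⟨rfl, rfl⟩ | ⟨rfl, rfl⟩ | ⟨rfl, rfl⟩ | ⟨rfl, rfl⟩
  · refine e_point (2 * k - j' + 1) (2 * j') (by rw [mTH]; omega) (by rw [mTH]; omega) ?_
    intro z h1 h2
    rw [hTH] at h1 h2
    push_cast at *
    constructor <;> linarith
  · refine e_point (2 * k - j' - 1) (2 * j') (by rw [mTH]; omega) (by rw [mTH]; omega) ?_
    intro z h1 h2
    rw [hTH] at h1 h2
    push_cast at *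
    constructor <;> linarith
  · refine e_h (2 * k' - j - 1) (2 * j + 1) (by rw [mTH]; omega) (by rw [mTH]; omega)
      (by rw [mTH]; omega) (by rw [mTH]; omega) ?_
    intro z h1 h2
    rw [hTH] at h1 h2
    push_cast at *
    refine ⟨?_, ?_, ?_⟩ <;> linarith
  · refine e_h (2 * k' - j) (2 * j - 1) (by rw [mTH]; omega) (by rw [mTH]; omega)
      (by rw [mTH]; omega) (by rw [mTH]; omega) ?_
    intro z h1 h2
    rw [hTH] at h1 h2
    push_cast at *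
    refine ⟨?_, ?_, ?_⟩ <;> linarith

lemma eHD {k j k' j' : ℤ} : EdgeToEdge (TH k j) (TD k' j') := by
  refine edge_of_nonempty fun z h1 h2 => ?_
  rw [hTH] at h1
  rw [hTD] at h2
  obtain ⟨⟨a1, a2⟩, ⟨a3, a4⟩, a5, a6⟩ := h1
  obtain ⟨b1, b2, b3⟩ := h2
  have c1 : 2 * k' - j' ≤ 2 * k - j + 1 := by
    have : (2 * k' - j' : ℝ) ≤ 2 * k - j + 1 := by linarith
    exact_mod_cast this
  have c2 : 2 * k - j - 1 ≤ 2 * k' - j' + 1 := by
    have : (2 * k - j - 1 : ℝ) ≤ 2 * k' - j' + 1 := by linarith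
    exact_mod_cast this
  have c3 : 2 * j' ≤ 2 * j + 1 := by
    have : (2 * j' : ℝ) ≤ 2 * j + 1 := by linarith
    exact_mod_cast this
  have c4 : 2 * j - 1 ≤ 2 * j' + 1 := by
    have : (2 * j - 1 : ℝ) ≤ 2 * j' + 1 := by linarith
    exact_mod_cast this
  have c5 : 2 * k' - j' + 2 * j' + 1 ≤ 2 * k - j + 2 * j + 1 := by
    have : (2 * k' - j' + 2 * j' + 1 : ℝ) ≤ 2 * k - j + 2 * j + 1 := by linarith
    exact_mod_cast this
  have c6 : 2 * k - j + 2 * j - 1 ≤ 2 * k' - j' + 2 * j' + 2 := by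
    have : (2 * k - j + 2 * j - 1 : ℝ) ≤ 2 * k' - j' + 2 * j' + 2 := by linarith
    exact_mod_cast this
  have hcase : (k' = k ∧ j' = j) ∨ (k' = k - 1 ∧ j' = j) ∨ (k' = k - 1 ∧ j' = j - 1) ∨
      (k' = k ∧ j' = j - 1) := by omega
  clear a1 a2 a3 a4 a5 a6 b1 b2 b3 c1 c2 c3 c4 c5 c6
  rcases hcase with ⟨rfl, rfl⟩ | ⟨rfl, rfl⟩ | ⟨rfl, rfl⟩ | ⟨rfl, rfl⟩
  · refine e_a (2 * k' - j' + 1) (2 * j') (by rw [mTH]; omega) (by rw [mTD]; omega)
      (by rw [mTH]; omega) (by rw [mTD]; omega) ?_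
    intro z h1 h2
    rw [hTH] at h1
    rw [hTD] at h2
    push_cast at *
    refine ⟨?_, ?_, ?_⟩ <;> linarith
  · refine e_b (2 * k - j' - 1) (2 * j') (by rw [mTH]; omega) (by rw [mTD]; omega)
      (by rw [mTH]; omega) (by rw [mTD]; omega) ?_
    intro z h1 h2
    rw [hTH] at h1
    rw [hTD] at h2
    push_cast at *
    refine ⟨?_, ?_, ?_⟩ <;> linarith
  · refine e_point (2 * k - j) (2 * j - 1) (by rw [mTH]; omega) (by rw [mTD]; omega) ?_
    intro z h1 h2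
    rw [hTH] at h1
    rw [hTD] at h2
    push_cast at *
    constructor <;> linarith
  · refine e_point (2 * k' - j + 1) (2 * j - 1) (by rw [mTH]; omega) (by rw [mTD]; omega) ?_
    intro z h1 h2
    rw [hTH] at h1
    rw [hTD] at h2
    push_cast at *
    constructor <;> linarith

lemma eHU {k j k' j' : ℤ} : EdgeToEdge (TH k j) (TU k' j') := by
  refine edge_of_nonempty fun z h1 h2 => ?_
  rw [hTH] at h1
  rw [hTU] at h2
  obtain ⟨⟨a1, a2⟩, ⟨a3, a4⟩, a5, a6⟩ := h1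
  obtain ⟨b1, b2, b3⟩ := h2
  have c1 : 2 * k' - j' + 1 ≤ 2 * k - j + 1 := by
    have : (2 * k' - j' + 1 : ℝ) ≤ 2 * k - j + 1 := by linarith
    exact_mod_cast this
  have c2 : 2 * k - j - 1 ≤ 2 * k' - j' + 2 := by
    have : (2 * k - j - 1 : ℝ) ≤ 2 * k' - j' + 2 := by linarith
    exact_mod_cast this
  have c3 : 2 * j' - 1 ≤ 2 * j + 1 := by
    have : (2 * j' - 1 : ℝ) ≤ 2 * j + 1 := by linarith
    exact_mod_cast this
  have c4 : 2 * j - 1 ≤ 2 * j' := by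
    have : (2 * j - 1 : ℝ) ≤ 2 * j' := by linarith
    exact_mod_cast this
  have c5 : 2 * k' - j' + 2 * j' ≤ 2 * k - j + 2 * j + 1 := by
    have : (2 * k' - j' + 2 * j' : ℝ) ≤ 2 * k - j + 2 * j + 1 := by linarith
    exact_mod_cast this
  have c6 : 2 * k - j + 2 * j - 1 ≤ 2 * k' - j' + 2 * j' + 1 := by
    have : (2 * k - j + 2 * j - 1 : ℝ) ≤ 2 * k' - j' + 2 * j' + 1 := by linarith
    exact_mod_cast this
  have hcase : (k' = k ∧ j' = j) ∨ (k' = k - 1 ∧ j' = j) ∨ (k' = k ∧ j' = j + 1) ∨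
      (k' = k - 1 ∧ j' = j + 1) := by omega
  clear a1 a2 a3 a4 a5 a6 b1 b2 b3 c1 c2 c3 c4 c5 c6
  rcases hcase with ⟨rfl, rfl⟩ | ⟨rfl, rfl⟩ | ⟨rfl, rfl⟩ | ⟨rfl, rfl⟩
  · refine e_b (2 * k' - j' + 1) (2 * j' - 1) (by rw [mTH]; omega) (by rw [mTU]; omega)
      (by rw [mTH]; omega) (by rw [mTU]; omega) ?_
    intro z h1 h2
    rw [hTH] at h1
    rw [hTU] at h2
    push_cast at *
    refine ⟨?_, ?_, ?_⟩ <;> linarith
  · refine e_a (2 * k - j') (2 * j' - 1) (by rw [mTH]; omega) (by rw [mTU]; omega)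
      (by rw [mTH]; omega) (by rw [mTU]; omega) ?_
    intro z h1 h2
    rw [hTH] at h1
    rw [hTU] at h2
    push_cast at *
    refine ⟨?_, ?_, ?_⟩ <;> linarith
  · refine e_point (2 * k' - j) (2 * j + 1) (by rw [mTH]; omega) (by rw [mTU]; omega) ?_
    intro z h1 h2
    rw [hTH] at h1
    rw [hTU] at h2
    push_cast at *
    constructor <;> linarith
  · refine e_point (2 * k - j - 1) (2 * j + 1) (by rw [mTH]; omega) (by rw [mTU]; omega) ?_
    intro z h1 h2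
    rw [hTH] at h1
    rw [hTU] at h2
    push_cast at *
    constructor <;> linarith

lemma eDD {k j k' j' : ℤ} (hne : ¬ (k = k' ∧ j = j')) : EdgeToEdge (TD k j) (TD k' j') := by
  refine edge_of_nonempty fun z h1 h2 => ?_
  rw [hTD] at h1 h2
  obtain ⟨a1, a2, a3⟩ := h1
  obtain ⟨b1, b2, b3⟩ := h2
  exfalso
  have c1 : 2 * k' - j' ≤ 2 * k - j + 1 := by
    have : (2 * k' - j' : ℝ) ≤ 2 * k - j + 1 := by linarith
    exact_mod_cast this
  have c2 : 2 * k - j ≤ 2 * k' - j' + 1 := by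
    have : (2 * k - j : ℝ) ≤ 2 * k' - j' + 1 := by linarith
    exact_mod_cast this
  have c3 : 2 * j' ≤ 2 * j + 1 := by
    have : (2 * j' : ℝ) ≤ 2 * j + 1 := by linarith
    exact_mod_cast this
  have c4 : 2 * j ≤ 2 * j' + 1 := by
    have : (2 * j : ℝ) ≤ 2 * j' + 1 := by linarith
    exact_mod_cast this
  omega

lemma eUU {k j k' j' : ℤ} (hne : ¬ (k = k' ∧ j = j')) : EdgeToEdge (TU k j) (TU k' j') := by
  refine edge_of_nonempty fun z h1 h2 => ?_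
  rw [hTU] at h1 h2
  obtain ⟨a1, a2, a3⟩ := h1
  obtain ⟨b1, b2, b3⟩ := h2
  exfalso
  have c1 : 2 * k' - j' + 1 ≤ 2 * k - j + 2 := by
    have : (2 * k' - j' + 1 : ℝ) ≤ 2 * k - j + 2 := by linarith
    exact_mod_cast this
  have c2 : 2 * k - j + 1 ≤ 2 * k' - j' + 2 := by
    have : (2 * k - j + 1 : ℝ) ≤ 2 * k' - j' + 2 := by linarith
    exact_mod_cast this
  have c3 : 2 * j' - 1 ≤ 2 * j := by
    have : (2 * j' - 1 : ℝ) ≤ 2 * j := by linarith
    exact_mod_cast this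
  have c4 : 2 * j - 1 ≤ 2 * j' := by
    have : (2 * j - 1 : ℝ) ≤ 2 * j' := by linarith
    exact_mod_cast this
  omega

lemma eDU {k j k' j' : ℤ} : EdgeToEdge (TD k j) (TU k' j') := by
  refine edge_of_nonempty fun z h1 h2 => ?_
  rw [hTD] at h1
  rw [hTU] at h2
  obtain ⟨a1, a2, a3⟩ := h1
  obtain ⟨b1, b2, b3⟩ := h2
  have c1 : 2 * k' - j' + 1 ≤ 2 * k - j + 1 := by
    have : (2 * k' - j' + 1 : ℝ) ≤ 2 * k - j + 1 := by linarith
    exact_mod_cast this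
  have c2 : 2 * k - j ≤ 2 * k' - j' + 2 := by
    have : (2 * k - j : ℝ) ≤ 2 * k' - j' + 2 := by linarith
    exact_mod_cast this
  have c3 : 2 * j' - 1 ≤ 2 * j + 1 := by
    have : (2 * j' - 1 : ℝ) ≤ 2 * j + 1 := by linarith
    exact_mod_cast this
  have c4 : 2 * j ≤ 2 * j' := by
    have : (2 * j : ℝ) ≤ 2 * j' := by linarith
    exact_mod_cast this
  have c5 : 2 * k' - j' + 2 * j' ≤ 2 * k - j + 2 * j + 2 := by
    have : (2 * k' - j' + 2 * j' : ℝ) ≤ 2 * k - j + 2 * j + 2 := by linarith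
    exact_mod_cast this
  have c6 : 2 * k - j + 2 * j + 1 ≤ 2 * k' - j' + 2 * j' + 1 := by
    have : (2 * k - j + 2 * j + 1 : ℝ) ≤ 2 * k' - j' + 2 * j' + 1 := by linarith
    exact_mod_cast this
  have hcase : (k' = k ∧ j' = j) ∨ (k' = k ∧ j' = j + 1) := by omega
  clear a1 a2 a3 b1 b2 b3 c1 c2 c3 c4 c5 c6
  rcases hcase with ⟨rfl, rfl⟩ | ⟨rfl, rfl⟩
  · refine e_point (2 * k' - j' + 1) (2 * j') (by rw [mTD]; omega) (by rw [mTU]; omega) ?_
    intro z h1 h2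
    rw [hTD] at h1
    rw [hTU] at h2
    push_cast at *
    constructor <;> linarith
  · refine e_h (2 * k' - j) (2 * j + 1) (by rw [mTD]; omega) (by rw [mTU]; omega)
      (by rw [mTD]; omega) (by rw [mTU]; omega) ?_
    intro z h1 h2
    rw [hTD] at h1
    rw [hTU] at h2
    push_cast at *
    refine ⟨?_, ?_, ?_⟩ <;> linarith

lemma isHex_TH (k j : ℤ) : IsHex (TH k j) := ⟨_, 1, by simp, rfl⟩
lemma isTri_TD (k j : ℤ) : IsTri (TD k j) := ⟨_, w, norm_w, rfl⟩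
lemma isTri_TU (k j : ℤ) : IsTri (TU k j) := ⟨_, -w, by rw [norm_neg, norm_w], rfl⟩

lemma F_edge {V W : Set ℂ} (hV : V ∈ F) (hW : W ∈ F) (hne : V ≠ W) : EdgeToEdge V W := by
  obtain ⟨k, j, hV⟩ := hV
  obtain ⟨k', j', hW⟩ := hW
  rcases hV with rfl | rfl | rfl <;> rcases hW with rfl | rfl | rfl
  · exact eHH (by rintro ⟨rfl, rfl⟩; exact hne rfl)
  · exact eHD
  · exact eHU
  · exact eHD.symm
  · exact eDD (by rintro ⟨rfl, rfl⟩; exact hne rfl)
  · exact eDU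
  · exact eHU.symm
  · exact eDU.symm
  · exact eUU (by rintro ⟨rfl, rfl⟩; exact hne rfl)

/-- the area condition follows from the edge condition -/
lemma area_of_edge {V W : Set ℂ} (h : EdgeToEdge V W) :
    volume (convexHull ℝ V ∩ convexHull ℝ W) = 0 := by
  rcases h with h | ⟨p, -, h⟩ | ⟨p, -, q, -, -, h⟩
  · rw [h]; simp
  · rw [h]; simp
  · rw [h]
    have h1 : segment ℝ p q ⊆ (AffineSubspace.mk' p (Submodule.span ℝ {q - p}) : Set ℂ) := by
      rw [segment_eq_image']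
      rintro z ⟨t, -, rfl⟩
      rw [SetLike.mem_coe, AffineSubspace.mem_mk']
      simp only [vsub_eq_sub, add_sub_cancel_left]
      exact Submodule.smul_mem _ _ (Submodule.mem_span_singleton_self _)
    refine measure_mono_null h1 ?_
    refine Measure.addHaar_affineSubspace _ _ ?_
    intro htop
    have h2 : (AffineSubspace.mk' p (Submodule.span ℝ {q - p})).direction = ⊤ := by
      rw [htop]; exact AffineSubspace.direction_top _ _ _
    rw [AffineSubspace.direction_mk'] at h2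
    have h3 : Module.finrank ℝ (Submodule.span ℝ {q - p}) ≤ 1 := by
      have := finrank_span_le_card (R := ℝ) ({q - p} : Set ℂ)
      simpa using this
    rw [h2, finrank_top, Complex.finrank_real_complex] at h3
    omega

lemma F_cover : region F = univ := by
  rw [eq_univ_iff_forall]
  intro z
  set X := bb z with hX
  set Y := hh z with hY
  set j : ℤ := ⌊(Y + 1) / 2⌋ with hj
  set k : ℤ := ⌊(X + j + 1) / 2⌋ with hk
  have j1 := Int.floor_le ((Y + 1) / 2)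
  have j2 := Int.lt_floor_add_one ((Y + 1) / 2)
  have k1 := Int.floor_le ((X + j + 1) / 2)
  have k2 := Int.lt_floor_add_one ((X + j + 1) / 2)
  rw [← hj] at j1 j2
  rw [← hk] at k1 k2
  simp only [region, mem_iUnion]
  by_cases c1 : X + Y ≤ 2 * k - j + 2 * j + 1
  · by_cases c2 : 2 * k - j + 2 * j - 1 ≤ X + Y
    · refine ⟨TH k j, ⟨k, j, Or.inl rfl⟩, ?_⟩
      rw [hTH]
      refine ⟨⟨?_, ?_⟩, ⟨?_, ?_⟩, ?_, ?_⟩ <;> linarith
    · push Not at c2
      refine ⟨TU (k - 1) j, ⟨k - 1, j, Or.inr (Or.inr rfl)⟩, ?_⟩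
      rw [hTU]
      push_cast
      refine ⟨?_, ?_, ?_⟩ <;> linarith
  · push Not at c1
    refine ⟨TD k j, ⟨k, j, Or.inr (Or.inl rfl)⟩, ?_⟩
    rw [hTD]
    refine ⟨?_, ?_, ?_⟩ <;> linarith

lemma F_isFamily : IsFamily F where
  tile := by
    rintro V ⟨k, j, rfl | rfl | rfl⟩
    · exact Or.inr (isHex_TH _ _)
    · exact Or.inl (isTri_TD _ _)
    · exact Or.inl (isTri_TU _ _)
  area := fun V hV W hW hne => area_of_edge (F_edge hV hW hne)
  edge := fun V hV W hW hne => F_edge hV hW hne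

lemma tri_dist {p u a b : ℂ} (hu : ‖u‖ = 1) (ha : a ∈ tri p u) (hb : b ∈ tri p u) : ‖a - b‖ ≤ 1 := by
  have hw := norm_w
  have h1 : ‖w * u‖ = 1 := by rw [norm_mul, hw, hu, one_mul]
  have h2 : ‖(w - 1) * u‖ = 1 := by rw [norm_mul, ← w_sq, norm_pow, hw, hu]; norm_num
  simp only [tri, mem_insert_iff, mem_singleton_iff] at ha hb
  rcases ha with ha | ha | ha <;> rcases hb with hb | hb | hb <;> rw [ha, hb]
  · simp
  · have : p - (p + u) = -u := by ring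
    rw [this, norm_neg, hu]
  · have : p - (p + w * u) = -(w * u) := by ring
    rw [this, norm_neg, h1]
  · have : (p + u) - p = u := by ring
    rw [this, hu]
  · simp
  · have : (p + u) - (p + w * u) = -((w - 1) * u) := by ring
    rw [this, norm_neg, h2]
  · have : (p + w * u) - p = w * u := by ring
    rw [this, h1]
  · have : (p + w * u) - (p + u) = (w - 1) * u := by ring
    rw [this, h2]
  · simp

lemma not_tri_hex {V : Set ℂ} (h1 : IsTri V) (h2 : IsHex V) : False := by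
  obtain ⟨p, u, hu, rfl⟩ := h1
  obtain ⟨c, v, hv, h⟩ := h2
  have a1 : c + v ∈ tri p u := by rw [h]; simp [hex]
  have a2 : c - v ∈ tri p u := by rw [h]; simp [hex]
  have := tri_dist hu a1 a2
  have e : c + v - (c - v) = 2 * v := by ring
  rw [e, norm_mul, hv] at this
  norm_num at this

lemma F_vertex {V : Set ℂ} (hV : V ∈ F) {v : ℂ} (hv : v ∈ V) :
    ∃ x y : ℤ, v = L x y ∧
      ((∃ k j : ℤ, x = 2 * k - j + 1 ∧ y = 2 * j) ∨ (∃ k j : ℤ, x = 2 * k - j ∧ y = 2 * j + 1) ∨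
      (∃ k j : ℤ, x = 2 * k - j + 1 ∧ y = 2 * j + 1)) := by
  obtain ⟨k, j, rfl | rfl | rfl⟩ := hV
  · obtain ⟨x, y, rfl⟩ := isLatH hv
    refine ⟨x, y, rfl, ?_⟩
    rw [mTH] at hv
    rcases hv with ⟨rfl, rfl⟩ | ⟨rfl, rfl⟩ | ⟨rfl, rfl⟩ | ⟨rfl, rfl⟩ | ⟨rfl, rfl⟩ | ⟨rfl, rfl⟩
    · exact Or.inl ⟨k, j, rfl, rfl⟩
    · exact Or.inr (Or.inl ⟨k, j, rfl, rfl⟩)
    · exact Or.inr (Or.inr ⟨k - 1, j, by ring, rfl⟩)
    · exact Or.inl ⟨k - 1, j, by ring, rfl⟩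
    · exact Or.inr (Or.inr ⟨k - 1, j - 1, by ring, by ring⟩)
    · exact Or.inr (Or.inl ⟨k, j - 1, by ring, by ring⟩)
  · obtain ⟨x, y, rfl⟩ := isLatD hv
    refine ⟨x, y, rfl, ?_⟩
    rw [mTD] at hv
    rcases hv with ⟨rfl, rfl⟩ | ⟨rfl, rfl⟩ | ⟨rfl, rfl⟩
    · exact Or.inl ⟨k, j, rfl, rfl⟩
    · exact Or.inr (Or.inr ⟨k, j, rfl, rfl⟩)
    · exact Or.inr (Or.inl ⟨k, j, rfl, rfl⟩)
  · obtain ⟨x, y, rfl⟩ := isLatU hv
    refine ⟨x, y, rfl, ?_⟩
    rw [mTU] at hv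
    rcases hv with ⟨rfl, rfl⟩ | ⟨rfl, rfl⟩ | ⟨rfl, rfl⟩
    · exact Or.inl ⟨k, j, rfl, rfl⟩
    · exact Or.inr (Or.inl ⟨k, j - 1, by ring, by ring⟩)
    · exact Or.inr (Or.inr ⟨k, j - 1, by ring, by ring⟩)

lemma ne_of_mem {V W : Set ℂ} {z : ℂ} (h1 : z ∈ V) (h2 : z ∉ W) : V ≠ W := by
  rintro rfl; exact h2 h1

lemma tri_count {x y : ℤ} (h : (∃ k j : ℤ, x = 2 * k - j + 1 ∧ y = 2 * j) ∨
      (∃ k j : ℤ, x = 2 * k - j ∧ y = 2 * j + 1) ∨ (∃ k j : ℤ, x = 2 * k - j + 1 ∧ y = 2 * j + 1)) :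
    {W ∈ F | IsTri W ∧ L x y ∈ W}.ncard = 2 := by
  rcases h with ⟨k, j, rfl, rfl⟩ | ⟨k, j, rfl, rfl⟩ | ⟨k, j, rfl, rfl⟩
  · have : {W ∈ F | IsTri W ∧ L (2 * k - j + 1) (2 * j) ∈ W} = {TD k j, TU k j} := by
      ext W
      simp only [mem_ofPred_eq, mem_insert_iff, mem_singleton_iff]
      constructor
      · rintro ⟨⟨k', j', rfl | rfl | rfl⟩, hT, hv⟩
        · exact absurd (not_tri_hex hT (isHex_TH _ _)) id
        · rw [mTD] at hv
          have : k' = k ∧ j' = j := by omega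
          obtain ⟨rfl, rfl⟩ := this
          exact Or.inl rfl
        · rw [mTU] at hv
          have : k' = k ∧ j' = j := by omega
          obtain ⟨rfl, rfl⟩ := this
          exact Or.inr rfl
      · rintro (rfl | rfl)
        · exact ⟨⟨k, j, Or.inr (Or.inl rfl)⟩, isTri_TD _ _, by rw [mTD]; omega⟩
        · exact ⟨⟨k, j, Or.inr (Or.inr rfl)⟩, isTri_TU _ _, by rw [mTU]; omega⟩
    rw [this, ncard_pair]
    exact ne_of_mem (z := L (2 * k - j + 1) (2 * j + 1)) (by rw [mTD]; omega) (by rw [mTU]; omega)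
  · have : {W ∈ F | IsTri W ∧ L (2 * k - j) (2 * j + 1) ∈ W} = {TD k j, TU k (j + 1)} := by
      ext W
      simp only [mem_ofPred_eq, mem_insert_iff, mem_singleton_iff]
      constructor
      · rintro ⟨⟨k', j', rfl | rfl | rfl⟩, hT, hv⟩
        · exact absurd (not_tri_hex hT (isHex_TH _ _)) id
        · rw [mTD] at hv
          have : k' = k ∧ j' = j := by omega
          obtain ⟨rfl, rfl⟩ := this
          exact Or.inl rfl
        · rw [mTU] at hv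
          have : k' = k ∧ j' = j + 1 := by omega
          obtain ⟨rfl, rfl⟩ := this
          exact Or.inr rfl
      · rintro (rfl | rfl)
        · exact ⟨⟨k, j, Or.inr (Or.inl rfl)⟩, isTri_TD _ _, by rw [mTD]; omega⟩
        · exact ⟨⟨k, j + 1, Or.inr (Or.inr rfl)⟩, isTri_TU _ _, by rw [mTU]; omega⟩
    rw [this, ncard_pair]
    exact ne_of_mem (z := L (2 * k - j + 1) (2 * j)) (by rw [mTD]; omega) (by rw [mTU]; omega)
  · have : {W ∈ F | IsTri W ∧ L (2 * k - j + 1) (2 * j + 1) ∈ W} = {TD k j, TU k (j + 1)} := by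
      ext W
      simp only [mem_ofPred_eq, mem_insert_iff, mem_singleton_iff]
      constructor
      · rintro ⟨⟨k', j', rfl | rfl | rfl⟩, hT, hv⟩
        · exact absurd (not_tri_hex hT (isHex_TH _ _)) id
        · rw [mTD] at hv
          have : k' = k ∧ j' = j := by omega
          obtain ⟨rfl, rfl⟩ := this
          exact Or.inl rfl
        · rw [mTU] at hv
          have : k' = k ∧ j' = j + 1 := by omega
          obtain ⟨rfl, rfl⟩ := this
          exact Or.inr rfl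
      · rintro (rfl | rfl)
        · exact ⟨⟨k, j, Or.inr (Or.inl rfl)⟩, isTri_TD _ _, by rw [mTD]; omega⟩
        · exact ⟨⟨k, j + 1, Or.inr (Or.inr rfl)⟩, isTri_TU _ _, by rw [mTU]; omega⟩
    rw [this, ncard_pair]
    exact ne_of_mem (z := L (2 * k - j + 1) (2 * j)) (by rw [mTD]; omega) (by rw [mTU]; omega)

lemma hex_count {x y : ℤ} (h : (∃ k j : ℤ, x = 2 * k - j + 1 ∧ y = 2 * j) ∨
      (∃ k j : ℤ, x = 2 * k - j ∧ y = 2 * j + 1) ∨ (∃ k j : ℤ, x = 2 * k - j + 1 ∧ y = 2 * j + 1)) :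
    {W ∈ F | IsHex W ∧ L x y ∈ W}.ncard = 2 := by
  rcases h with ⟨k, j, rfl, rfl⟩ | ⟨k, j, rfl, rfl⟩ | ⟨k, j, rfl, rfl⟩
  · have : {W ∈ F | IsHex W ∧ L (2 * k - j + 1) (2 * j) ∈ W} = {TH k j, TH (k + 1) j} := by
      ext W
      simp only [mem_ofPred_eq, mem_insert_iff, mem_singleton_iff]
      constructor
      · rintro ⟨⟨k', j', rfl | rfl | rfl⟩, hT, hv⟩
        · rw [mTH] at hv
          have : (k' = k ∧ j' = j) ∨ (k' = k + 1 ∧ j' = j) := by omega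
          rcases this with ⟨rfl, rfl⟩ | ⟨rfl, rfl⟩
          · exact Or.inl rfl
          · exact Or.inr rfl
        · exact absurd (not_tri_hex (isTri_TD _ _) hT) id
        · exact absurd (not_tri_hex (isTri_TU _ _) hT) id
      · rintro (rfl | rfl)
        · exact ⟨⟨k, j, Or.inl rfl⟩, isHex_TH _ _, by rw [mTH]; omega⟩
        · exact ⟨⟨k + 1, j, Or.inl rfl⟩, isHex_TH _ _, by rw [mTH]; omega⟩
    rw [this, ncard_pair]
    exact ne_of_mem (z := L (2 * k - j - 1) (2 * j)) (by rw [mTH]; omega) (by rw [mTH]; omega)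
  · have : {W ∈ F | IsHex W ∧ L (2 * k - j) (2 * j + 1) ∈ W} = {TH k j, TH k (j + 1)} := by
      ext W
      simp only [mem_ofPred_eq, mem_insert_iff, mem_singleton_iff]
      constructor
      · rintro ⟨⟨k', j', rfl | rfl | rfl⟩, hT, hv⟩
        · rw [mTH] at hv
          have : (k' = k ∧ j' = j) ∨ (k' = k ∧ j' = j + 1) := by omega
          rcases this with ⟨rfl, rfl⟩ | ⟨rfl, rfl⟩
          · exact Or.inl rfl
          · exact Or.inr rfl
        · exact absurd (not_tri_hex (isTri_TD _ _) hT) id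
        · exact absurd (not_tri_hex (isTri_TU _ _) hT) id
      · rintro (rfl | rfl)
        · exact ⟨⟨k, j, Or.inl rfl⟩, isHex_TH _ _, by rw [mTH]; omega⟩
        · exact ⟨⟨k, j + 1, Or.inl rfl⟩, isHex_TH _ _, by rw [mTH]; omega⟩
    rw [this, ncard_pair]
    exact ne_of_mem (z := L (2 * k - j - 1) (2 * j)) (by rw [mTH]; omega) (by rw [mTH]; omega)
  · have : {W ∈ F | IsHex W ∧ L (2 * k - j + 1) (2 * j + 1) ∈ W} = {TH (k + 1) j, TH (k + 1) (j + 1)} := by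
      ext W
      simp only [mem_ofPred_eq, mem_insert_iff, mem_singleton_iff]
      constructor
      · rintro ⟨⟨k', j', rfl | rfl | rfl⟩, hT, hv⟩
        · rw [mTH] at hv
          have : (k' = k + 1 ∧ j' = j) ∨ (k' = k + 1 ∧ j' = j + 1) := by omega
          rcases this with ⟨rfl, rfl⟩ | ⟨rfl, rfl⟩
          · exact Or.inl rfl
          · exact Or.inr rfl
        · exact absurd (not_tri_hex (isTri_TD _ _) hT) id
        · exact absurd (not_tri_hex (isTri_TU _ _) hT) id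
      · rintro (rfl | rfl)
        · exact ⟨⟨k + 1, j, Or.inl rfl⟩, isHex_TH _ _, by rw [mTH]; omega⟩
        · exact ⟨⟨k + 1, j + 1, Or.inl rfl⟩, isHex_TH _ _, by rw [mTH]; omega⟩
    rw [this, ncard_pair]
    exact ne_of_mem (z := L (2 * (k + 1) - j - 1) (2 * j)) (by rw [mTH]; omega) (by rw [mTH]; omega)

theorem F_isTiling : IsTiling F where
  toIsFamily := F_isFamily
  cover := F_cover
  tris := by
    intro V hV v hv
    obtain ⟨x, y, rfl, h⟩ := F_vertex hV hv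
    exact tri_count h
  hexs := by
    intro V hV v hv
    obtain ⟨x, y, rfl, h⟩ := F_vertex hV hv
    exact hex_count h

/-- in a subfamily of `F` the number of triangles and of hexagons at a vertex is at most two -/
lemma sub_tris {P : Set (Set ℂ)} (hP : P ⊆ F) (v : ℂ) : {V ∈ P | IsTri V ∧ v ∈ V}.ncard ≤ 2 := by
  by_cases h : ∃ V ∈ F, v ∈ V
  · obtain ⟨V, hV, hv⟩ := h
    have h2 := F_isTiling.tris V hV v hv
    rw [← h2]
    refine ncard_le_ncard (fun W hW => ⟨hP hW.1, hW.2⟩) ?_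
    exact finite_of_ncard_ne_zero (by rw [h2]; norm_num)
  · have : {V ∈ P | IsTri V ∧ v ∈ V} = ∅ := by
      rw [eq_empty_iff_forall_notMem]
      rintro V ⟨h1, -, h2⟩
      exact h ⟨V, hP h1, h2⟩
    rw [this]; simp

lemma sub_hexs {P : Set (Set ℂ)} (hP : P ⊆ F) (v : ℂ) : {V ∈ P | IsHex V ∧ v ∈ V}.ncard ≤ 2 := by
  by_cases h : ∃ V ∈ F, v ∈ V
  · obtain ⟨V, hV, hv⟩ := h
    have h2 := F_isTiling.hexs V hV v hv
    rw [← h2]
    refine ncard_le_ncard (fun W hW => ⟨hP hW.1, hW.2⟩) ?_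
    exact finite_of_ncard_ne_zero (by rw [h2]; norm_num)
  · have : {V ∈ P | IsHex V ∧ v ∈ V} = ∅ := by
      rw [eq_empty_iff_forall_notMem]
      rintro V ⟨h1, -, h2⟩
      exact h ⟨V, hP h1, h2⟩
    rw [this]; simp

lemma IsFamily.mono {P Q : Set (Set ℂ)} (hQ : IsFamily Q) (h : P ⊆ Q) : IsFamily P where
  tile := fun V hV => hQ.tile V (h hV)
  area := fun V hV W hW => hQ.area V (h hV) W (h hW)
  edge := fun V hV W hW => hQ.edge V (h hV) W (h hW)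

end Pool.Agent.H140.TH
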